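import Pool.Agent.R578.SE.Defs
import Pool.Agent.H750R3.SignCount

set_option autoImplicit false

/-!
# Type B Worpitzky identities with signs
-/

namespace Pool.Agent.R578.SE

open Equiv Finset

section gcount

variable {m : ℕ}

/-- number of ascents strictly before position `i` -/
def asx (x : Fin (m + 1) → ℤ) (i : Fin (m + 1)) : ℕ :=
  (univ.filter (fun l : Fin m => l.castSucc < i ∧ x l.castSucc < x l.succ)).card

theorem asx_zero (x : Fin (m + 1) → ℤ) : asx x 0 = 0 := by
  unfold asx
  rw [card_eq_zero]
  ext l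
  simp

theorem asx_succ (x : Fin (m + 1) → ℤ) (l : Fin m) :
    asx x l.succ = asx x l.castSucc + if x l.castSucc < x l.succ then 1 else 0 := by
  classical
  unfold asx
  by_cases h : x l.castSucc < x l.succ
  · rw [if_pos h]
    have : (univ.filter (fun l' : Fin m => l'.castSucc < l.succ ∧ x l'.castSucc < x l'.succ))
      = insert l (univ.filter
        (fun l' : Fin m => l'.castSucc < l.castSucc ∧ x l'.castSucc < x l'.succ)) := by
      ext l'
      simp only [mem_filter, mem_univ, true_and, mem_insert,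
        Fin.castSucc_lt_succ_iff, Fin.castSucc_lt_castSucc_iff]
      constructor
      · rintro ⟨h1, h2⟩
        rcases h1.lt_or_eq with h3 | h3
        · exact Or.inr ⟨h3, h2⟩
        · exact Or.inl h3
      · rintro (rfl | ⟨h1, h2⟩)
        · exact ⟨le_rfl, h⟩
        · exact ⟨h1.le, h2⟩
    rw [this, card_insert_of_notMem]
    simp
  · rw [if_neg h, add_zero]
    congr 1
    ext l'
    simp only [mem_filter, mem_univ, true_and,
        Fin.castSucc_lt_succ_iff, Fin.castSucc_lt_castSucc_iff]
    constructor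
    · rintro ⟨h1, h2⟩
      rcases h1.lt_or_eq with h3 | h3
      · exact ⟨h3, h2⟩
      · subst h3; exact absurd h2 h
    · rintro ⟨h1, h2⟩
      exact ⟨h1.le, h2⟩

theorem asx_le (x : Fin (m + 1) → ℤ) (i : Fin (m + 1)) : asx x i ≤ i.val := by
  induction i using Fin.induction with
  | zero => simp [asx_zero]
  | succ l ih =>
    rw [asx_succ]
    have : (l.succ : Fin (m+1)).val = l.castSucc.val + 1 := by simp
    split_ifs <;> omega

/-- `g` is weakly increasing, and strictly increasing where `x` does not ascend -/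
def pat {α : Type} [LinearOrder α] (x : Fin (m + 1) → ℤ) (g : Fin (m + 1) → α) : Prop :=
  ∀ l : Fin m, g l.castSucc < g l.succ ∨ (g l.castSucc = g l.succ ∧ x l.castSucc < x l.succ)

open Classical in
theorem gcount (X : ℕ) (x : Fin (m + 1) → ℤ) :
    (univ.filter (fun g : Fin (m + 1) → Fin X => pat x g)).card =
      (X + asx x (Fin.last m)).choose (m + 1) := by
  rw [← H750R3.card_strictMono]
  have hb : ∀ w : Fin (m+1) → Fin X, pat x w →
      StrictMono (fun i => (w i).val + asx x i) := by
    intro w hw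
    rw [Fin.strictMono_iff_lt_succ]
    intro l
    have h := hw l
    rw [asx_succ]
    rcases h with h | ⟨h1, h2⟩
    · have : (w l.castSucc).val < (w l.succ).val := h
      split_ifs <;> omega
    · rw [if_pos h2, h1]; omega
  refine card_bij (fun w hw => fun i => ⟨(w i).val + asx x i, ?_⟩) ?_ ?_ ?_
  · simp only [mem_filter, mem_univ, true_and] at hw
    have h1 := (hb w hw).monotone (Fin.le_last i)
    have h2 := (w (Fin.last m)).isLt
    omega
  · intro w hw
    simp only [mem_filter, mem_univ, true_and] at hw ⊢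
    intro i j hij
    exact hb w hw hij
  · intro w _ w' _ h
    funext i
    have := congrFun h i
    simp only [Fin.mk.injEq, add_left_inj] at this
    exact Fin.ext this
  · intro b hb2
    simp only [mem_filter, mem_univ, true_and] at hb2
    have hle : ∀ i : Fin (m+1), i.val ≤ (b i).val := by
      intro i
      induction i using Fin.induction with
      | zero => simp
      | succ l ih =>
        have h1 : (b l.castSucc).val < (b l.succ).val := hb2 (Fin.castSucc_lt_succ)
        have : (l.succ : Fin (m+1)).val = l.castSucc.val + 1 := by simp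
        omega
    have hmono : Monotone (fun i => (b i).val - asx x i) := by
      rw [Fin.monotone_iff_le_succ]
      intro l
      have h1 : (b l.castSucc).val < (b l.succ).val := hb2 (Fin.castSucc_lt_succ)
      rw [asx_succ]
      split_ifs <;> omega
    have hbd : ∀ i : Fin (m+1), (b i).val - asx x i < X := by
      intro i
      have h1 := hmono (Fin.le_last i)
      simp only at h1
      have h2 := (b (Fin.last m)).isLt
      have h3 := asx_le x (Fin.last m)
      have h4 := hle (Fin.last m)
      omega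
    refine ⟨fun j => ⟨(b j).val - asx x j, hbd _⟩, ?_, ?_⟩
    · simp only [mem_filter, mem_univ, true_and]
      intro l
      simp only [Fin.mk_lt_mk, Fin.mk.injEq]
      have h1 : (b l.castSucc).val < (b l.succ).val := hb2 (Fin.castSucc_lt_succ)
      have h5 := asx_le x l.castSucc
      have h6 := hle l.castSucc
      rw [asx_succ]
      split_ifs with h
      · omega
      · omega
    · funext i
      apply Fin.ext
      simp only
      have h5 := asx_le x i
      have h6 := hle i
      omega

theorem des_eq (x : Fin (m + 1) → ℤ) :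
    des x = (univ.filter (fun l : Fin m => x l.succ < x l.castSucc)).card := by
  classical
  unfold des
  symm
  refine card_bij (fun l _ => (l.castSucc, l.succ)) ?_ ?_ ?_
  · intro l hl
    simp only [mem_filter, mem_univ, true_and] at hl ⊢
    exact ⟨by simp, hl⟩
  · intro l _ l' _ h
    exact Fin.castSucc_injective _ (Prod.ext_iff.1 h).1
  · intro p hp
    simp only [mem_filter, mem_univ, true_and] at hp
    obtain ⟨hl, h⟩ := hp
    have hkm : p.1.val < m := by have := p.2.isLt; omega
    refine ⟨⟨p.1.val, hkm⟩, ?_, ?_⟩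
    · simp only [mem_filter, mem_univ, true_and]
      have h1 : (⟨p.1.val, hkm⟩ : Fin m).succ = p.2 := by
        ext; simp [hl]
      have h2 : (⟨p.1.val, hkm⟩ : Fin m).castSucc = p.1 := by
        ext; simp
      rw [h1, h2]; exact h
    · apply Prod.ext
      · ext; simp
      · ext; simp [hl]

theorem des_add_asx {x : Fin (m + 1) → ℤ} (hx : Function.Injective x) :
    des x + asx x (Fin.last m) = m := by
  classical
  rw [des_eq]
  unfold asx
  rw [← card_union_of_disjoint]
  · have : (univ.filter (fun l : Fin m => x l.succ < x l.castSucc)) ∪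
      (univ.filter (fun l : Fin m => l.castSucc < Fin.last m ∧ x l.castSucc < x l.succ))
      = univ := by
      ext l
      simp only [mem_union, mem_filter, mem_univ, true_and, iff_true]
      rcases lt_trichotomy (x l.castSucc) (x l.succ) with h | h | h
      · exact Or.inr ⟨Fin.castSucc_lt_last l, h⟩
      · exact absurd (hx h) (by simp [Fin.ext_iff])
      · exact Or.inl h
    rw [this]; simp
  · rw [disjoint_left]
    intro l hl hl'
    simp only [mem_filter, mem_univ, true_and] at hl hl'
    exact absurd hl (not_lt.2 hl'.2.le)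

lemma pat_mono {α : Type} [LinearOrder α] {x : Fin (m + 1) → ℤ} {g : Fin (m + 1) → α}
    (h : pat x g) : Monotone g := by
  rw [Fin.monotone_iff_le_succ]
  intro l
  rcases h l with h | h
  · exact h.le
  · exact h.1.le

open Classical in
theorem gcount0 (k : ℕ) {x : Fin (m + 1) → ℤ} (hx : Function.Injective x) :
    (univ.filter (fun g : Fin (m + 1) → Fin (k + 1) =>
      pat x g ∧ (x 0 < 0 → 1 ≤ (g 0).val))).card =
      (k + (m + 1) - (des x + (if x 0 < 0 then 1 else 0))).choose (m + 1) := by
  have hd := des_add_asx hx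
  by_cases h0 : x 0 < 0
  · rw [if_pos h0]
    have e : k + (m + 1) - (des x + 1) = k + asx x (Fin.last m) := by omega
    rw [e, ← gcount]
    symm
    refine card_bij (fun g _ => fun i => (g i).succ) ?_ ?_ ?_
    · intro g hg
      simp only [mem_filter, mem_univ, true_and] at hg ⊢
      refine ⟨fun l => ?_, fun _ => by simp⟩
      rcases hg l with h | h
      · exact Or.inl (Fin.succ_lt_succ_iff.2 h)
      · refine Or.inr ⟨?_, h.2⟩
        show (g l.castSucc).succ = (g l.succ).succ
        rw [h.1]
    · intro g _ g' _ h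
      funext i
      exact Fin.succ_injective _ (congrFun h i)
    · intro b hb
      simp only [mem_filter, mem_univ, true_and] at hb
      have hpos : ∀ i, b i ≠ 0 := by
        intro i hi
        have h1 : b 0 ≤ b i := pat_mono hb.1 (Fin.zero_le _)
        have h2 := hb.2 h0
        rw [hi] at h1
        have : (b 0).val ≤ 0 := h1
        omega
      refine ⟨fun i => (b i).pred (hpos i), ?_, ?_⟩
      · simp only [mem_filter, mem_univ, true_and]
        intro l
        rcases hb.1 l with h | h
        · exact Or.inl (Fin.pred_lt_pred_iff.2 h)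
        · refine Or.inr ⟨?_, h.2⟩
          simp only [h.1]
      · funext i
        simp
  · rw [if_neg h0]
    have e : k + (m + 1) - (des x + 0) = k + 1 + asx x (Fin.last m) := by omega
    rw [e, ← gcount]
    congr 1
    ext g
    simp only [mem_filter, mem_univ, true_and]
    constructor
    · exact fun h => h.1
    · exact fun h => ⟨h, fun h1 => absurd h1 h0⟩

end gcount

lemma val_inj {n : ℕ} (s : Fin n → Bool) : Function.Injective (val s) := by
  intro u v h
  unfold val at h
  apply Fin.ext
  split_ifs at h <;> omega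

/-- the word which is sorted -/
def FF {n k : ℕ} (s : Fin n → Bool) (f : Fin n → Fin (k + 1)) (v : Fin n) : Fin (k + 1) ×ₗ ℤ :=
  toLex (f v, val s v)

lemma FF_inj {n k : ℕ} (s : Fin n → Bool) (f : Fin n → Fin (k + 1)) :
    Function.Injective (FF s f) := by
  intro u v h
  have h1 : (f u, val s u) = (f v, val s v) := toLex.injective h
  exact val_inj s (Prod.ext_iff.1 h1).2

/-- admissible words -/
def adm {n k : ℕ} (s : Fin n → Bool) (f : Fin n → Fin (k + 1)) : Prop :=
  ∀ v, s v = true → 1 ≤ (f v).val

lemma sort_FF_iff {m k : ℕ} (σ : Perm (Fin (m + 1))) (s : Fin (m + 1) → Bool)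
    (f : Fin (m + 1) → Fin (k + 1)) :
    Tuple.sort (FF s f) = σ ↔ pat (ent (σ, s)) (f ∘ σ) := by
  rw [H750R3.sort_eq_iff_succ]
  unfold pat
  refine forall_congr' fun l => ?_
  constructor
  · rintro (h | h)
    · exact Prod.Lex.toLex_lt_toLex.1 h
    · exact absurd (σ.injective (FF_inj s f h.1)) (by simp [Fin.ext_iff])
  · intro h
    exact Or.inl (Prod.Lex.toLex_lt_toLex.2 h)

lemma adm_iff {m k : ℕ} (σ : Perm (Fin (m + 1))) (s : Fin (m + 1) → Bool)
    (f : Fin (m + 1) → Fin (k + 1)) (h : pat (ent (σ, s)) (f ∘ σ)) :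
    adm s f ↔ (ent (σ, s) 0 < 0 → 1 ≤ ((f ∘ σ) 0).val) := by
  constructor
  · intro ha h0
    apply ha
    unfold ent val at h0
    by_contra hs
    rw [if_neg hs] at h0
    simp only at h0
    omega
  · intro h1 v hv
    obtain ⟨i, rfl⟩ := σ.surjective v
    by_contra h2
    have hsort := (sort_FF_iff σ s f).2 h
    have h3 : Monotone (FF s f ∘ σ) := by
      rw [← hsort]
      exact Tuple.monotone_sort _
    have h4 := h3 (Fin.zero_le i)
    have h5 : f (σ 0) < f (σ i) ∨ (f (σ 0) = f (σ i) ∧ val s (σ 0) ≤ val s (σ i)) :=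
      Prod.Lex.toLex_le_toLex.1 h4
    have hfv : (f (σ i)).val = 0 := by omega
    have hvv : val s (σ i) < 0 := by
      unfold val
      rw [if_pos hv]
      omega
    rcases h5 with h5 | h5
    · have : (f (σ 0)).val < (f (σ i)).val := h5
      omega
    · have h6 : ent (σ, s) 0 < 0 := lt_of_le_of_lt h5.2 hvv
      have h7 := h1 h6
      simp only [Function.comp] at h7
      rw [h5.1] at h7
      omega

open Classical in
/-- number of admissible words sorted by `w` -/
theorem cntB {n : ℕ} (k : ℕ) (w : SP n) :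
    (univ.filter (fun f : Fin n → Fin (k + 1) =>
      adm w.2 f ∧ Tuple.sort (FF w.2 f) = w.1)).card = (k + n - desB w).choose n := by
  obtain ⟨σ, s⟩ := w
  rcases n with _ | m
  · rw [Nat.choose_zero_right]
    rw [card_eq_one]
    refine ⟨fun i => 0, ?_⟩
    ext f
    simp only [mem_filter, mem_univ, true_and, mem_singleton]
    constructor
    · intro _
      exact Subsingleton.elim _ _
    · intro _
      exact ⟨fun v => v.elim0, Subsingleton.elim _ _⟩
  · have hinj : Function.Injective (ent (σ, s)) := fun i j h => σ.injective (val_inj s h)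
    have hdes : desB (σ, s) = des (ent (σ, s)) + (if ent (σ, s) 0 < 0 then 1 else 0) := by
      unfold desB
      congr 1
      split_ifs with h
      · rw [card_eq_one]
        refine ⟨0, ?_⟩
        ext i
        simp only [mem_filter, mem_univ, true_and, mem_singleton]
        constructor
        · intro hi
          exact Fin.ext hi.1
        · rintro rfl
          exact ⟨rfl, h⟩
      · rw [card_eq_zero]
        ext i
        simp only [mem_filter, mem_univ, true_and, notMem_empty, iff_false]
        rintro ⟨h1, h2⟩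
        have : i = 0 := Fin.ext h1
        rw [this] at h2
        exact h h2
    rw [hdes, ← gcount0 k hinj]
    refine card_bij (fun f _ => f ∘ σ) ?_ ?_ ?_
    · intro f hf
      simp only [mem_filter, mem_univ, true_and] at hf ⊢
      have h1 := (sort_FF_iff σ s f).1 hf.2
      exact ⟨h1, (adm_iff σ s f h1).1 hf.1⟩
    · intro f _ f' _ h
      funext i
      have := congrFun h (σ⁻¹ i)
      simpa using this
    · intro g hg
      simp only [mem_filter, mem_univ, true_and] at hg
      have e : (g ∘ ⇑σ⁻¹) ∘ ⇑σ = g := by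
        funext i
        simp
      refine ⟨g ∘ ⇑σ⁻¹, ?_, e⟩
      simp only [mem_filter, mem_univ, true_and]
      have h1 : pat (ent (σ, s)) ((g ∘ ⇑σ⁻¹) ∘ σ) := by
        rw [e]
        exact hg.1
      refine ⟨(adm_iff σ s _ h1).2 ?_, (sort_FF_iff σ s _).2 h1⟩
      rw [e]
      exact hg.2

/-! ### The sum over all words -/

/-- letters: a value and a sign -/
abbrev Let (k : ℕ) : Type := Fin (k + 1) × Bool

/-- weight of the admissible letters -/
def ind {k : ℕ} (y : Let k) : ℤ := if y.2 = true → 1 ≤ y.1.val then 1 else 0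

/-- comparison sign of two letters -/
def cc {k : ℕ} (x y : Let k) : ℤ := if x.1 < y.1 ∨ (x.1 = y.1 ∧ y.2 = false) then 1 else -1

/-- sign of a word -/
def EE {n k : ℕ} (x : Fin n → Let k) : ℤ := ∏ i, ∏ j ∈ Ioi i, cc (x i) (x j)

theorem EE_cons {n k : ℕ} (u : Let k) (w : Fin n → Let k) :
    EE (Fin.cons u w : Fin (n + 1) → Let k) = (∏ j, cc u (w j)) * EE w := by
  unfold EE
  rw [Fin.prod_univ_succ]
  congr 1
  · rw [Fin.Ioi_zero_eq_map, prod_map]
    simp
  · refine prod_congr rfl fun i _ => ?_
    rw [Fin.Ioi_succ, prod_map]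
    simp

theorem sign_FF {n k : ℕ} (x : Fin n → Let k) :
    ((Perm.sign (Tuple.sort (FF (fun v => (x v).2) (fun v => (x v).1))) : ℤˣ) : ℤ) = EE x := by
  rw [H750R3.sign_sort]
  unfold H750R3.eps EE
  refine prod_congr rfl fun i _ => prod_congr rfl fun j hj => ?_
  rw [mem_Ioi] at hj
  unfold H750R3.sg cc
  have h : (FF (fun v => (x v).2) (fun v => (x v).1) i ≤
      FF (fun v => (x v).2) (fun v => (x v).1) j) ↔
      ((x i).1 < (x j).1 ∨ ((x i).1 = (x j).1 ∧ (x j).2 = false)) := by
    unfold FF
    rw [Prod.Lex.toLex_le_toLex]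
    simp only
    have h1 : val (fun v => (x v).2) i ≤ val (fun v => (x v).2) j ↔ (x j).2 = false := by
      unfold val
      simp only
      have hij : (i : ℕ) < (j : ℕ) := hj
      rcases Bool.eq_false_or_eq_true (x j).2 with hb | hb <;>
      rcases Bool.eq_false_or_eq_true (x i).2 with hb' | hb' <;>
      simp [hb, hb'] <;> omega
    rw [h1]
  simp only [h]

/-- the words sorted by the signed permutations -/
theorem master (n k : ℕ) (c : SP n → ℤ) :
    ∑ w : SP n, c w * (((k + n - desB w).choose n : ℕ) : ℤ) =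
      ∑ x : Fin n → Let k, (∏ v, ind (x v)) *
        c (Tuple.sort (FF (fun v => (x v).2) (fun v => (x v).1)), fun v => (x v).2) := by
  classical
  have h1 : ∀ w : SP n, c w * (((k + n - desB w).choose n : ℕ) : ℤ) =
      ∑ f : Fin n → Fin (k + 1), if adm w.2 f ∧ Tuple.sort (FF w.2 f) = w.1 then c w else 0 := by
    intro w
    rw [← cntB, ← sum_filter, sum_const, nsmul_eq_mul, mul_comm]
  simp_rw [h1]
  rw [Fintype.sum_prod_type_right]
  have h2 : ∀ s : Fin n → Bool, ∑ σ : Perm (Fin n), ∑ f : Fin n → Fin (k + 1),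
      (if adm s f ∧ Tuple.sort (FF s f) = σ then c (σ, s) else 0) =
      ∑ f : Fin n → Fin (k + 1), if adm s f then c (Tuple.sort (FF s f), s) else 0 := by
    intro s
    rw [sum_comm]
    refine sum_congr rfl fun f _ => ?_
    by_cases ha : adm s f
    · simp [ha]
    · simp [ha]
  simp_rw [h2]
  rw [← Fintype.sum_prod_type']
  refine (Fintype.sum_equiv
    (⟨fun x => (fun v => (x v).2, fun v => (x v).1), fun p v => (p.2 v, p.1 v),
      fun x => rfl, fun p => rfl⟩ : (Fin n → Let k) ≃ (Fin n → Bool) × (Fin n → Fin (k + 1)))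
    _ _ fun x => ?_).symm
  simp only [Equiv.coe_fn_mk]
  by_cases ha : adm (fun v => (x v).2) (fun v => (x v).1)
  · rw [if_pos ha, prod_eq_one, one_mul]
    intro v _
    unfold ind
    rw [if_pos (ha v)]
  · rw [if_neg ha]
    unfold adm at ha
    push Not at ha
    obtain ⟨v, hv1, hv2⟩ := ha
    rw [prod_eq_zero (mem_univ v), zero_mul]
    unfold ind
    rw [if_neg]
    intro h
    have := h hv1
    omega

lemma sum_ind (k : ℕ) : ∑ y : Let k, ind y = 2 * k + 1 := by
  rw [Fintype.sum_prod_type, Fin.sum_univ_succ]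
  simp only [Fintype.sum_bool]
  have h1 : ∀ i : Fin k, ind ((i.succ, true) : Let k) + ind ((i.succ, false) : Let k) = 2 := by
    intro i
    simp [ind]
  simp_rw [h1]
  simp [ind]
  ring

/-- **Type B Worpitzky identity.** -/
theorem countB (n k : ℕ) :
    ∑ w : SP n, (((k + n - desB w).choose n : ℕ) : ℤ) = (2 * k + 1) ^ n := by
  have h := master n k (fun _ => 1)
  simp only [one_mul, mul_one] at h
  rw [h, ← sum_ind, Fintype.sum_pow]

lemma sum_cons {n k : ℕ} (f : (Fin (n + 1) → Let k) → ℤ) :
    ∑ w : Fin (n + 1) → Let k, f w = ∑ u : Let k, ∑ w : Fin n → Let k, f (Fin.cons u w) := by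
  rw [← (Fin.consEquiv (fun _ : Fin (n + 1) => Let k)).sum_comp, Fintype.sum_prod_type]
  rfl

/-- signed weight -/
def chi {k : ℕ} (y : Let k) : ℤ := ind y * (if y.2 = true then -1 else 1)

lemma cc_fst {k : ℕ} (a : Fin (k + 1)) (b : Bool) (y : Let k) : cc (a, b) y = cc (a, false) y := rfl

lemma len_step {n k : ℕ} (w : Fin n → Let k) :
    (∏ j, chi (w j)) * ∑ u : Let k, chi u * ∏ j, cc u (w j) = ∏ j, chi (w j) := by
  have h1 : ∑ u : Let k, chi u * ∏ j, cc u (w j) = ∏ j, cc ((0 : Fin (k + 1)), false) (w j) := by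
    rw [Fintype.sum_prod_type, Fin.sum_univ_succ]
    simp only [Fintype.sum_bool]
    have h2 : ∀ i : Fin k, chi ((i.succ, true) : Let k) * ∏ j, cc (i.succ, true) (w j) +
        chi ((i.succ, false) : Let k) * ∏ j, cc (i.succ, false) (w j) = 0 := by
      intro i
      simp_rw [cc_fst i.succ true]
      simp [chi, ind]
    simp_rw [h2]
    simp [chi, ind]
  rw [h1, ← prod_mul_distrib]
  refine prod_congr rfl fun j _ => ?_
  rcases hw : w j with ⟨a, b⟩
  by_cases ha : a = 0
  · subst ha
    rcases b with _ | _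
    · simp [cc]
    · simp [chi, ind]
  · have : (0 : Fin (k + 1)) < a := Fin.pos_of_ne_zero ha
    simp [cc, this]

lemma len_sum (n k : ℕ) : ∑ x : Fin n → Let k, (∏ v, chi (x v)) * EE x = 1 := by
  induction n with
  | zero => simp [EE]
  | succ n ih =>
    rw [sum_cons, ← ih, sum_comm]
    refine sum_congr rfl fun w _ => ?_
    have h : ∀ u : Let k, (∏ v, chi ((Fin.cons u w : Fin (n + 1) → Let k) v)) *
        EE (Fin.cons u w : Fin (n + 1) → Let k) =
        EE w * ((∏ j, chi (w j)) * (chi u * ∏ j, cc u (w j))) := by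
      intro u
      rw [EE_cons, Fin.prod_univ_succ]
      simp only [Fin.cons_zero, Fin.cons_succ]
      ring
    simp_rw [h]
    rw [← mul_sum, ← mul_sum, len_step, mul_comm]

lemma neg_pow {n : ℕ} (w : SP n) : ((-1 : ℤ)) ^ (neg w) = ∏ v, (if w.2 v = true then -1 else 1) := by
  unfold neg
  have h1 : ∏ v, (if w.2 v = true then (-1 : ℤ) else 1) =
      ∏ i, (if w.2 (w.1 i) = true then (-1 : ℤ) else 1) :=
    (Equiv.prod_comp w.1 (fun v => if w.2 v = true then (-1 : ℤ) else 1)).symm
  rw [h1, prod_ite, prod_const_one, mul_one, prod_const]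
  congr 2
  ext i
  simp only [mem_filter, mem_univ, true_and]
  unfold ent val
  split_ifs with h
  · exact ⟨fun _ => h, fun _ => by omega⟩
  · exact ⟨fun h1 => by omega, fun h1 => absurd h1 h⟩

/-- **Type B Worpitzky identity with length signs.** -/
theorem countB_len (n k : ℕ) :
    ∑ w : SP n, ((Perm.sign w.1 : ℤˣ) : ℤ) * (-1) ^ (neg w) *
      (((k + n - desB w).choose n : ℕ) : ℤ) = 1 := by
  rw [master n k (fun w => ((Perm.sign w.1 : ℤˣ) : ℤ) * (-1) ^ (neg w))]
  refine Eq.trans (sum_congr rfl fun x _ => ?_) (len_sum n k)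
  rw [sign_FF, neg_pow]
  unfold chi
  rw [prod_mul_distrib]
  ring

/-- the pair weight -/
def KK {k : ℕ} (a a' : Fin (k + 1)) : ℤ :=
  ∑ b : Bool, ∑ b' : Bool, ind (a, b) * ind (a', b') * cc (a, b) (a', b')

lemma KK_add {k : ℕ} (a a' : Fin (k + 1)) :
    KK a a' + KK a' a = if a = a' then (if a = 0 then 2 else 0) else 0 := by
  unfold KK
  simp only [Fintype.sum_bool]
  rcases lt_trichotomy a a' with h | h | h
  · have h1 : ¬ a' < a := not_lt.2 h.le
    have h2 : ¬ a' = a := h.ne'
    simp [cc, h, h1, h2, h.ne]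
    ring
  · subst h
    by_cases ha : a = 0
    · subst ha
      simp [cc, ind]
    · have : 1 ≤ (a : ℕ) := Nat.one_le_iff_ne_zero.2 (fun h => ha (Fin.ext h))
      simp [cc, ind, ha, this]
  · have h1 : ¬ a < a' := not_lt.2 h.le
    have h2 : ¬ a = a' := h.ne'
    simp [cc, h, h1, h2, h.ne]
    ring

lemma sign_sum_step (n k : ℕ) : ∑ x : Fin (n + 2) → Let k, (∏ v, ind (x v)) * EE x =
    ∑ x : Fin n → Let k, (∏ v, ind (x v)) * EE x := by
  rw [sum_cons]
  have h1 : ∀ u : Let k, ∑ w : Fin (n + 1) → Let k,
      (∏ v, ind ((Fin.cons u w : Fin (n + 2) → Let k) v)) * EE (Fin.cons u w : Fin (n + 2) → Let k) =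
      ∑ v : Let k, ∑ w : Fin n → Let k, (ind u * ind v * cc u v) *
        ((∏ j, ind (w j)) * (∏ j, cc (u.1, false) (w j)) * (∏ j, cc (v.1, false) (w j)) * EE w) := by
    intro u
    rw [sum_cons]
    refine sum_congr rfl fun v _ => sum_congr rfl fun w _ => ?_
    rw [EE_cons, EE_cons, Fin.prod_univ_succ, Fin.prod_univ_succ, Fin.prod_univ_succ]
    simp only [Fin.cons_zero, Fin.cons_succ]
    have e1 : ∀ j, cc u (w j) = cc (u.1, false) (w j) := fun j => rfl
    have e2 : ∀ j, cc v (w j) = cc (v.1, false) (w j) := fun j => rfl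
    simp_rw [e1, e2]
    ring
  simp_rw [h1, ← mul_sum]
  set G : Fin (k + 1) → Fin (k + 1) → ℤ := fun a a' => ∑ w : Fin n → Let k,
    (∏ j, ind (w j)) * (∏ j, cc (a, false) (w j)) * (∏ j, cc (a', false) (w j)) * EE w with hG
  have h2 : ∑ u : Let k, ∑ v : Let k, ind u * ind v * cc u v * (∑ w : Fin n → Let k,
      (∏ j, ind (w j)) * (∏ j, cc (u.1, false) (w j)) * (∏ j, cc (v.1, false) (w j)) * EE w) =
      ∑ a : Fin (k + 1), ∑ a' : Fin (k + 1), KK a a' * G a a' := by
    rw [Fintype.sum_prod_type]
    refine sum_congr rfl fun a _ => ?_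
    simp_rw [Fintype.sum_prod_type]
    rw [sum_comm]
    refine sum_congr rfl fun a' _ => ?_
    unfold KK
    rw [sum_mul]
    refine sum_congr rfl fun b _ => ?_
    rw [sum_mul]
  rw [h2]
  have hGs : ∀ a a', G a a' = G a' a := by
    intro a a'
    simp only [hG]
    refine sum_congr rfl fun w _ => ?_
    ring
  have hGd : G 0 0 = ∑ x : Fin n → Let k, (∏ v, ind (x v)) * EE x := by
    simp only [hG]
    refine sum_congr rfl fun w _ => ?_
    have : (∏ j, cc ((0 : Fin (k + 1)), false) (w j)) * (∏ j, cc ((0 : Fin (k + 1)), false) (w j)) = 1 := by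
      rw [← prod_mul_distrib]
      apply prod_eq_one
      intro j _
      unfold cc
      split_ifs <;> norm_num
    rw [mul_assoc (∏ j, ind (w j)), this, mul_one]
  have e1 : ∑ a : Fin (k + 1), ∑ a' : Fin (k + 1), KK a a' * G a a' =
      ∑ a : Fin (k + 1), ∑ a' : Fin (k + 1), KK a' a * G a a' := by
    rw [sum_comm]
    refine sum_congr rfl fun a _ => sum_congr rfl fun a' _ => ?_
    rw [hGs]
  have e2 : ∑ a : Fin (k + 1), ∑ a' : Fin (k + 1), KK a a' * G a a' +
      ∑ a : Fin (k + 1), ∑ a' : Fin (k + 1), KK a' a * G a a' = 2 * G 0 0 := by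
    rw [← sum_add_distrib]
    have : ∀ a : Fin (k + 1), ∑ a' : Fin (k + 1), KK a a' * G a a' +
        ∑ a' : Fin (k + 1), KK a' a * G a a' = if a = 0 then 2 * G 0 0 else 0 := by
      intro a
      rw [← sum_add_distrib]
      have h3 : ∀ a' : Fin (k + 1), KK a a' * G a a' + KK a' a * G a a' =
          if a = a' then (if a = 0 then 2 * G 0 0 else 0) else 0 := by
        intro a'
        rw [← add_mul, KK_add]
        by_cases h4 : a = a'
        · subst h4
          by_cases h5 : a = 0
          · subst h5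
            simp
          · simp [h5]
        · simp [h4]
      simp_rw [h3]
      rw [sum_ite_eq]
      simp
    simp_rw [this]
    rw [sum_ite_eq']
    simp
  rw [← hGd]
  linarith

lemma sign_sum (n k : ℕ) : ∑ x : Fin n → Let k, (∏ v, ind (x v)) * EE x =
    (if Even n then (1 : ℤ) else 2 * (k : ℤ) + 1) := by
  induction n using Nat.strong_induction_on with
  | _ n ih =>
    rcases n with _ | _ | n
    · simp [EE]
    · rw [if_neg (by decide), ← sum_ind]
      have : ∑ x : Fin 1 → Let k, (∏ v, ind (x v)) * EE x = ∑ x : Fin 1 → Let k, ∏ v, ind (x v) := by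
        refine sum_congr rfl fun x _ => ?_
        simp [EE]
      rw [zero_add, this, ← Fintype.sum_pow, pow_one]
    · rw [sign_sum_step, ih n (by omega)]
      simp only [Nat.even_add_one, not_not]

/-- **Type B Worpitzky identity with permutation signs.** -/
theorem countB_sign (n k : ℕ) :
    ∑ w : SP n, ((Perm.sign w.1 : ℤˣ) : ℤ) * (((k + n - desB w).choose n : ℕ) : ℤ) =
      if Even n then 1 else 2 * k + 1 := by
  rw [master n k (fun w => ((Perm.sign w.1 : ℤˣ) : ℤ))]
  have h := sign_sum n k
  have e : ((if Even n then 1 else 2 * k + 1 : ℕ) : ℤ) =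
      (if Even n then (1 : ℤ) else 2 * (k : ℤ) + 1) := by
    split_ifs <;> simp
  rw [e, ← h]
  refine sum_congr rfl fun x _ => ?_
  rw [sign_FF]

/-! ### Signs and lengths -/

lemma pow_card {n : ℕ} (P : Fin n → Fin n → Prop) [∀ i j, Decidable (P i j)] :
    (-1 : ℤˣ) ^ (univ.filter (fun p : Fin n × Fin n => p.1 < p.2 ∧ P p.1 p.2)).card =
      ∏ i, ∏ j ∈ Ioi i, (if P i j then -1 else 1) := by
  have h1 : ∀ i : Fin n, ∏ j ∈ Ioi i, (if P i j then (-1 : ℤˣ) else 1) =
      ∏ j : Fin n, (if i < j ∧ P i j then (-1 : ℤˣ) else 1) := by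
    intro i
    rw [← filter_lt_eq_Ioi, prod_filter]
    refine prod_congr rfl fun j _ => ?_
    by_cases h : i < j <;> simp [h]
  simp_rw [h1]
  rw [← Fintype.prod_prod_type', prod_ite, prod_const_one, mul_one, prod_const]

theorem sign_lenD {n : ℕ} (w : SP n) : (-1 : ℤˣ) ^ (lenD w) = Perm.sign w.1 := by
  unfold lenD invP invM
  rw [pow_add, pow_card (fun i j => ent w j < ent w i), pow_card (fun i j => ent w j < - ent w i),
    Perm.sign_eq_prod_prod_Ioi, ← prod_mul_distrib]
  refine prod_congr rfl fun i _ => ?_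
  rw [← prod_mul_distrib]
  refine prod_congr rfl fun j hj => ?_
  rw [mem_Ioi] at hj
  have hne : w.1 i ≠ w.1 j := fun h => hj.ne (w.1.injective h)
  have hne' : ((w.1 i : Fin n) : ℕ) ≠ ((w.1 j : Fin n) : ℕ) := fun h => hne (Fin.ext h)
  have hlt : w.1 i < w.1 j ↔ ((w.1 i : Fin n) : ℕ) < ((w.1 j : Fin n) : ℕ) := Iff.rfl
  unfold ent val
  rcases Bool.eq_false_or_eq_true (w.2 (w.1 i)) with hb | hb <;>
  rcases Bool.eq_false_or_eq_true (w.2 (w.1 j)) with hb' | hb' <;>
  rcases lt_or_gt_of_ne hne' with h | h
  all_goals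
    simp only [hb, hb', if_true, hlt, h, not_lt.2 h.le, Bool.false_eq_true, if_false]
    split_ifs <;> first | rfl | (exfalso; omega)

theorem sign_lenB {n : ℕ} (w : SP n) : (-1 : ℤˣ) ^ (lenB w) = Perm.sign w.1 * (-1) ^ (neg w) := by
  have : lenB w = lenD w + neg w := rfl
  rw [this, pow_add, sign_lenD]

end Pool.Agent.R578.SE
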