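import Mathlib

/-!
# Stability preserving operators on numerators of `∑ p(k) t^k`
-/

namespace Pool.Agent.R578.SE

open Polynomial Complex

/-- If `h/(1-t)^(n+1) = ∑ p(k) t^k`, then `M1 n h/(1-t)^(n+2) = ∑ (k+1) p(k) t^k`. -/
noncomputable def M1 (n : ℕ) (h : ℂ[X]) : ℂ[X] :=
  X * (1 - X) * derivative h + C ((n : ℂ) + 1) * X * h + (1 - X) * h

/-- no zeros in the open upper half plane -/
def Stab (h : ℂ[X]) : Prop := ∀ z : ℂ, 0 < z.im → h.eval z ≠ 0

theorem M1_add (n : ℕ) (f g : ℂ[X]) : M1 n (f + g) = M1 n f + M1 n g := by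
  unfold M1; rw [derivative_add]; ring

theorem M1_C_mul (n : ℕ) (c : ℂ) (g : ℂ[X]) : M1 n (C c * g) = C c * M1 n g := by
  unfold M1; rw [derivative_C_mul]; ring

theorem M1_natDegree (n : ℕ) (h : ℂ[X]) (hd : h.natDegree ≤ n) : (M1 n h).natDegree ≤ n + 1 := by
  have h1 : (derivative h).natDegree ≤ n - 1 := (natDegree_derivative_le h).trans (by omega)
  have hx : (1 - X : ℂ[X]).natDegree ≤ 1 := (natDegree_sub_le _ _).trans (by simp)
  unfold M1
  refine (natDegree_add_le _ _).trans (max_le ((natDegree_add_le _ _).trans (max_le ?_ ?_)) ?_)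
  · rcases Nat.eq_zero_or_pos n with hn | hn
    · have : derivative h = 0 := by
        have h0 : h.natDegree = 0 := by omega
        rw [eq_C_of_natDegree_eq_zero h0, derivative_C]
      rw [this]; simp
    · refine natDegree_mul_le.trans ?_
      have : (X * (1 - X) : ℂ[X]).natDegree ≤ 2 := natDegree_mul_le.trans (by simp; omega)
      omega
  · refine natDegree_mul_le.trans ?_
    have : (C ((n : ℂ) + 1) * X : ℂ[X]).natDegree ≤ 1 := (natDegree_C_mul_le _ _).trans (by simp)
    omega
  · refine natDegree_mul_le.trans ?_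
    omega

theorem im_term (z ζ : ℂ) (hz : 0 < z.im) (hζ : ζ.im ≤ 0) :
    0 ≤ ((z - 1) * ((1 - ζ) / (z - ζ))).im := by
  have hne : z - ζ ≠ 0 := by
    intro h
    have := congrArg Complex.im h
    simp at this
    linarith
  have hpos : 0 < Complex.normSq (z - ζ) := Complex.normSq_pos.2 hne
  have key : ((z - 1) * ((1 - ζ) / (z - ζ))).im =
      (Complex.normSq (ζ - 1) * z.im - Complex.normSq (z - 1) * ζ.im) / Complex.normSq (z - ζ) := by
    rw [div_eq_mul_inv, Complex.inv_def]
    simp only [Complex.mul_im, Complex.mul_re, Complex.sub_re, Complex.sub_im, Complex.one_re,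
      Complex.one_im, Complex.conj_re, Complex.conj_im, Complex.normSq_apply, Complex.ofReal_re,
      Complex.ofReal_im]
    have : (z.re - ζ.re) * (z.re - ζ.re) + (z.im - ζ.im) * (z.im - ζ.im) ≠ 0 := by
      rw [Complex.normSq_apply] at hpos
      simp only [Complex.sub_re, Complex.sub_im] at hpos
      exact hpos.ne'
    field_simp
    ring
  rw [key]
  apply div_nonneg _ hpos.le
  have h1 := Complex.normSq_nonneg (ζ - 1)
  have h2 := Complex.normSq_nonneg (z - 1)
  nlinarith

theorem M1_stab (n : ℕ) (h : ℂ[X]) (hd : h.natDegree ≤ n) (hs : Stab h) : Stab (M1 n h) := by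
  intro z hz
  have h0 := hs z hz
  have hz0 : z ≠ 0 := by rintro rfl; simp at hz
  have hsp : h.Splits := IsAlgClosed.splits h
  have hder := hsp.eval_derivative_div_eval_of_ne_zero h0
  have hcard : Multiset.card h.roots = h.natDegree := hsp.natDegree_eq_card_roots.symm
  intro hcon
  have e1 : (M1 n h).eval z = z * (1 - z) * (derivative h).eval z + ((n:ℂ)+1) * z * h.eval z
      + (1 - z) * h.eval z := by
    unfold M1; simp
  rw [e1] at hcon
  have e2 : z * (1 - z) * ((derivative h).eval z / h.eval z) + ((n:ℂ)+1) * z + (1 - z) = 0 := by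
    field_simp
    linear_combination hcon
  rw [hder] at e2
  -- multiply by (z-1)/z
  have e3 : (z - 1) * ((1 - z) * (h.roots.map (fun w => 1 / (z - w))).sum + (Multiset.card h.roots : ℂ))
      + ((n : ℂ) - (Multiset.card h.roots : ℂ)) * (z - 1) + (z - 1) / z = 0 := by
    have : (z - 1) * ((1 - z) * (h.roots.map (fun w => 1 / (z - w))).sum + (Multiset.card h.roots : ℂ))
      + ((n : ℂ) - (Multiset.card h.roots : ℂ)) * (z - 1) + (z - 1) / z = (z - 1) / z *
        (z * (1 - z) * (h.roots.map (fun w => 1 / (z - w))).sum + ((n:ℂ)+1) * z + (1 - z)) := by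
      field_simp
      ring
    rw [this, e2, mul_zero]
  have e4 : (1 - z) * (h.roots.map (fun w => 1 / (z - w))).sum + (Multiset.card h.roots : ℂ) =
      (h.roots.map (fun w => (1 - w) / (z - w))).sum := by
    have hr : ∀ w ∈ h.roots, z - w ≠ 0 := by
      intro w hw h2
      have : z = w := sub_eq_zero.1 h2
      rw [← this] at hw
      exact h0 ((mem_roots'.1 hw).2)
    generalize h.roots = s at hr
    induction s using Multiset.induction_on with
    | empty => simp
    | cons a s ih =>
      have ih' := ih (fun w hw => hr w (Multiset.mem_cons_of_mem hw))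
      have ha := hr a (Multiset.mem_cons_self a s)
      rw [Multiset.map_cons, Multiset.sum_cons, Multiset.map_cons, Multiset.sum_cons, ← ih',
        Multiset.card_cons]
      push_cast
      field_simp
      ring
  rw [e4] at e3
  have e5 : 0 ≤ ((z - 1) * (h.roots.map (fun w => (1 - w) / (z - w))).sum).im := by
    have hr : ∀ w ∈ h.roots, w.im ≤ 0 := by
      intro w hw
      by_contra h2
      push Not at h2
      exact hs w h2 ((mem_roots'.1 hw).2)
    generalize h.roots = s at hr
    induction s using Multiset.induction_on with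
    | empty => simp
    | cons a s ih =>
      have ih' := ih (fun w hw => hr w (Multiset.mem_cons_of_mem hw))
      have ha := im_term z a hz (hr a (Multiset.mem_cons_self a s))
      rw [Multiset.map_cons, Multiset.sum_cons, mul_add, Complex.add_im]
      linarith
  have e6 : 0 ≤ ((((n : ℂ) - (Multiset.card h.roots : ℂ)) * (z - 1))).im := by
    have : (n : ℂ) - (Multiset.card h.roots : ℂ) = ((n - h.natDegree : ℕ) : ℂ) := by
      rw [hcard, Nat.cast_sub hd]
    rw [this, Complex.mul_im]
    simp only [Complex.natCast_re, Complex.natCast_im, Complex.sub_im, Complex.one_im, sub_zero,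
      zero_mul, add_zero]
    positivity
  have e7 : 0 < ((z - 1) / z).im := by
    have : (z - 1) / z = 1 - z⁻¹ := by field_simp
    rw [this, Complex.sub_im, Complex.one_im, Complex.inv_im]
    have := Complex.normSq_pos.2 hz0
    have h3 : 0 < z.im / Complex.normSq z := div_pos hz this
    rw [neg_div]
    linarith
  have e8 := congrArg Complex.im e3
  rw [Complex.add_im, Complex.add_im, Complex.zero_im] at e8
  linarith

/-- iterate `M1`, starting at level `n`, `m` times -/
noncomputable def itM : ℕ → ℕ → ℂ[X] → ℂ[X]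
  | _, 0, h => h
  | n, m + 1, h => itM (n + 1) m (M1 n h)

theorem itM_add (m : ℕ) : ∀ (n : ℕ) (f g : ℂ[X]), itM n m (f + g) = itM n m f + itM n m g := by
  induction m with
  | zero => intro n f g; rfl
  | succ m ih => intro n f g; simp only [itM]; rw [M1_add, ih]

theorem itM_C_mul (m : ℕ) : ∀ (n : ℕ) (c : ℂ) (g : ℂ[X]), itM n m (C c * g) = C c * itM n m g := by
  induction m with
  | zero => intro n c g; rfl
  | succ m ih => intro n c g; simp only [itM]; rw [M1_C_mul, ih]

theorem itM_stab (m : ℕ) : ∀ (n : ℕ) (h : ℂ[X]), h.natDegree ≤ n → Stab h → Stab (itM n m h) := by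
  induction m with
  | zero => intro n h _ hs; exact hs
  | succ m ih =>
    intro n h hd hs
    exact ih (n + 1) _ (M1_natDegree n h hd) (M1_stab n h hd hs)

theorem itM_natDegree (m : ℕ) : ∀ (n : ℕ) (h : ℂ[X]), h.natDegree ≤ n →
    (itM n m h).natDegree ≤ n + m := by
  induction m with
  | zero => intro n h hd; exact hd
  | succ m ih =>
    intro n h hd
    have := ih (n + 1) _ (M1_natDegree n h hd)
    simp only [itM]
    omega

theorem itM_comp (a : ℕ) : ∀ (n b : ℕ) (h : ℂ[X]), itM n (a + b) h = itM (n + a) b (itM n a h) := by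
  induction a with
  | zero => intro n b h; simp [itM]
  | succ a ih =>
    intro n b h
    rw [show a + 1 + b = (a + b) + 1 by ring]
    simp only [itM]
    rw [ih, show n + 1 + a = n + (a + 1) by ring]

/-- the Eulerian polynomial: numerator of `∑ (k+1)^n t^k` -/
noncomputable def EA (n : ℕ) : ℂ[X] := itM 0 n 1

theorem EA_succ (n : ℕ) : EA (n + 1) = M1 n (EA n) := by
  unfold EA
  rw [itM_comp n 0 1, Nat.zero_add]; rfl

theorem EA_stab (n : ℕ) : Stab (EA n) := by
  apply itM_stab
  · simp
  · intro z _; simp

theorem EA_natDegree (n : ℕ) : (EA n).natDegree ≤ n := by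
  have := itM_natDegree n 0 1 (by simp)
  rwa [Nat.zero_add] at this

theorem EA_natDegree_lt (n : ℕ) (hn : 1 ≤ n) : (EA n).natDegree ≤ n - 1 := by
  induction n with
  | zero => omega
  | succ n ih =>
    rcases Nat.eq_zero_or_pos n with h | h
    · subst h
      rw [EA_succ]
      have : M1 0 (EA 0) = 1 := by
        unfold M1 EA itM
        simp
      rw [this]; simp
    · have h2 := ih h
      -- degree n+1 coefficient of M1 n f vanishes when deg f ≤ n-1: top terms cancel partially
      rw [EA_succ]
      have hd : (EA n).natDegree ≤ n - 1 := h2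
      obtain ⟨m, rfl⟩ : ∃ m, n = m + 1 := ⟨n - 1, by omega⟩
      have h1 : (derivative (EA (m+1))).natDegree ≤ m - 1 := (natDegree_derivative_le _).trans (by omega)
      have hx : (1 - X : ℂ[X]).natDegree ≤ 1 := (natDegree_sub_le _ _).trans (by simp)
      unfold M1
      refine (natDegree_add_le _ _).trans (max_le ((natDegree_add_le _ _).trans (max_le ?_ ?_)) ?_)
      · rcases Nat.eq_zero_or_pos m with hm | hm
        · have : derivative (EA (m+1)) = 0 := by
            have h0 : (EA (m+1)).natDegree = 0 := by omega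
            rw [eq_C_of_natDegree_eq_zero h0, derivative_C]
          rw [this]; simp
        · refine natDegree_mul_le.trans ?_
          have : (X * (1 - X) : ℂ[X]).natDegree ≤ 2 := natDegree_mul_le.trans (by simp; omega)
          omega
      · refine natDegree_mul_le.trans ?_
        have : (C (((m + 1 : ℕ) : ℂ) + 1) * X : ℂ[X]).natDegree ≤ 1 := (natDegree_C_mul_le _ _).trans (by simp)
        omega
      · refine natDegree_mul_le.trans ?_
        omega

/-- numerator of `∑ k^j (k+1)^(n-j) t^k` for `1 ≤ j ≤ n` -/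
noncomputable def EB (n j : ℕ) : ℂ[X] := itM j (n - j) (X * EA j)

theorem EA_eq_itM (n j : ℕ) (h : j ≤ n) : EA n = itM j (n - j) (EA j) := by
  unfold EA
  have := itM_comp j 0 (n - j) 1
  rw [Nat.zero_add, show j + (n - j) = n by omega] at this
  exact this

theorem EB_im_pos (n j : ℕ) (h1 : 1 ≤ j) (hj : j ≤ n) (z : ℂ) (hz : 0 < z.im) :
    0 < ((EB n j).eval z / (EA n).eval z).im := by
  by_contra hc
  push Not at hc
  set r := (EB n j).eval z / (EA n).eval z with hr
  have hA := EA_stab n z hz
  have hst : Stab ((X - C r) * EA j) := by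
    intro y hy
    rw [eval_mul]
    refine mul_ne_zero ?_ (EA_stab j y hy)
    rw [eval_sub, eval_X, eval_C]
    intro h2
    have := congrArg Complex.im h2
    rw [Complex.sub_im, Complex.zero_im] at this
    linarith
  have hdeg : ((X - C r) * EA j).natDegree ≤ j := by
    refine natDegree_mul_le.trans ?_
    rw [natDegree_X_sub_C]
    have := EA_natDegree_lt j h1
    omega
  have h3 := itM_stab (n - j) j _ hdeg hst z hz
  apply h3
  have e : (X - C r) * EA j = X * EA j + C (-r) * EA j := by
    rw [C_neg]; ring
  rw [e, itM_add, itM_C_mul, ← EA_eq_itM n j hj, eval_add, eval_mul, eval_C]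
  change (EB n j).eval z + _ = 0
  rw [hr]
  field_simp
  ring

end Pool.Agent.R578.SE
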