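import Mathlib
import Pool.Agent.R578.SE.Stab

/-!
# Numerators of rational generating functions
-/

namespace Pool.Agent.R578.SE

open Polynomial

/-- `w/(1-t)^(n+1) = ∑ p(k) t^k` as formal power series -/
def IsW (n : ℕ) (p : ℕ → ℂ) (w : ℂ[X]) : Prop :=
  (w : PowerSeries ℂ) = (1 - PowerSeries.X) ^ (n + 1) * PowerSeries.mk p

theorem isW_unique {n : ℕ} {p : ℕ → ℂ} {w w' : ℂ[X]} (h : IsW n p w) (h' : IsW n p w') : w = w' := by
  unfold IsW at h h'
  apply Polynomial.coe_injective ℂ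
  rw [h, h']

theorem isW_one : IsW 0 (fun _ => 1) 1 := by
  unfold IsW
  have := PowerSeries.mk_one_mul_one_sub_eq_one ℂ
  rw [Polynomial.coe_one, zero_add, pow_one, mul_comm]
  exact this.symm

theorem isW_M1 {n : ℕ} {p : ℕ → ℂ} {w : ℂ[X]} (h : IsW n p w) :
    IsW (n + 1) (fun k => ((k : ℂ) + 1) * p k) (M1 n w) := by
  unfold IsW at h ⊢
  have hd := congrArg (PowerSeries.derivative ℂ) h
  have e1 : (PowerSeries.derivative ℂ) (w : PowerSeries ℂ) = ((derivative w : ℂ[X]) : PowerSeries ℂ) := by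
    ext k
    simp [PowerSeries.coeff_derivative, Polynomial.coeff_derivative]
  rw [e1] at hd
  have e2 : (PowerSeries.derivative ℂ) ((1 - PowerSeries.X) ^ (n + 1) * PowerSeries.mk p) =
      (1 - PowerSeries.X) ^ (n + 1) * (PowerSeries.derivative ℂ) (PowerSeries.mk p)
      - ((n : PowerSeries ℂ) + 1) * (1 - PowerSeries.X) ^ n * PowerSeries.mk p := by
    rw [Derivation.leibniz, Derivation.leibniz_pow, map_sub, Derivation.map_one_eq_zero,
      PowerSeries.derivative_X]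
    simp only [smul_eq_mul, nsmul_eq_mul]
    push_cast
    ring_nf
  rw [e2] at hd
  have e3 : PowerSeries.mk (fun k => ((k : ℂ) + 1) * p k) =
      PowerSeries.X * (PowerSeries.derivative ℂ) (PowerSeries.mk p) + PowerSeries.mk p := by
    ext k
    cases k with
    | zero => simp
    | succ k =>
      rw [map_add, PowerSeries.coeff_succ_X_mul, PowerSeries.coeff_derivative, PowerSeries.coeff_mk,
        PowerSeries.coeff_mk]
      push_cast
      ring
  rw [e3]
  unfold M1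
  push_cast
  rw [hd, h]
  have : (PowerSeries.C ((n : ℂ) + 1) : PowerSeries ℂ) = (n : PowerSeries ℂ) + 1 := by
    rw [map_add, map_natCast, map_one]
  rw [this]
  ring

theorem isW_EA (n : ℕ) : IsW n (fun k => ((k : ℂ) + 1) ^ n) (EA n) := by
  induction n with
  | zero => simpa [EA, itM] using isW_one
  | succ n ih =>
    rw [EA_succ]
    have := isW_M1 ih
    convert this using 2 with k
    ring

theorem isW_X_EA (n : ℕ) (hn : 1 ≤ n) : IsW n (fun k => (k : ℂ) ^ n) (X * EA n) := by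
  have h := isW_EA n
  unfold IsW at h ⊢
  rw [Polynomial.coe_mul, h, Polynomial.coe_X]
  have : PowerSeries.mk (fun k : ℕ => (k : ℂ) ^ n) =
      PowerSeries.X * PowerSeries.mk (fun k : ℕ => ((k : ℂ) + 1) ^ n) := by
    ext k
    cases k with
    | zero => simp; omega
    | succ k =>
      rw [PowerSeries.coeff_succ_X_mul, PowerSeries.coeff_mk, PowerSeries.coeff_mk]
      push_cast
      rfl
  rw [this]
  ring

theorem isW_itM (m : ℕ) : ∀ (n : ℕ) (p : ℕ → ℂ) (w : ℂ[X]), IsW n p w →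
    IsW (n + m) (fun k => p k * ((k : ℂ) + 1) ^ m) (itM n m w) := by
  induction m with
  | zero => intro n p w h; simpa [itM] using h
  | succ m ih =>
    intro n p w h
    have := ih (n + 1) _ _ (isW_M1 h)
    simp only [itM]
    have e : n + (m + 1) = n + 1 + m := by ring
    rw [e]
    convert this using 2 with k
    ring

theorem isW_EB (n j : ℕ) (h1 : 1 ≤ j) (hj : j ≤ n) :
    IsW n (fun k => (k : ℂ) ^ j * ((k : ℂ) + 1) ^ (n - j)) (EB n j) := by
  have := isW_itM (n - j) j _ _ (isW_X_EA j h1)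
  rw [show j + (n - j) = n by omega] at this
  exact this

theorem isW_add {n : ℕ} {p q : ℕ → ℂ} {w v : ℂ[X]} (h : IsW n p w) (h' : IsW n q v) :
    IsW n (fun k => p k + q k) (w + v) := by
  unfold IsW at *
  rw [Polynomial.coe_add, h, h', ← mul_add]
  congr 1

theorem isW_C_mul {n : ℕ} {p : ℕ → ℂ} {w : ℂ[X]} (c : ℂ) (h : IsW n p w) :
    IsW n (fun k => c * p k) (C c * w) := by
  unfold IsW at *
  rw [Polynomial.coe_mul, h, Polynomial.coe_C]
  have : PowerSeries.mk (fun k => c * p k) = PowerSeries.C c * PowerSeries.mk p := by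
    ext k
    rw [PowerSeries.coeff_C_mul, PowerSeries.coeff_mk, PowerSeries.coeff_mk]
  rw [this]
  ring

theorem isW_zero (n : ℕ) : IsW n (fun _ => 0) 0 := by
  unfold IsW
  have : PowerSeries.mk (fun _ : ℕ => (0 : ℂ)) = 0 := by ext k; simp
  rw [this]; simp

theorem isW_sum {n : ℕ} {ι : Type} (s : Finset ι) (p : ι → ℕ → ℂ) (w : ι → ℂ[X])
    (h : ∀ i ∈ s, IsW n (p i) (w i)) : IsW n (fun k => ∑ i ∈ s, p i k) (∑ i ∈ s, w i) := by
  classical
  induction s using Finset.induction_on with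
  | empty => simpa using isW_zero n
  | insert a s ha ih =>
    rw [Finset.sum_insert ha]
    have h1 := h a (Finset.mem_insert_self a s)
    have h2 := ih (fun i hi => h i (Finset.mem_insert_of_mem hi))
    convert isW_add h1 h2 using 2 with k
    rw [Finset.sum_insert ha]

/-- one monomial -/
theorem isW_X_pow (n d : ℕ) (hd : d ≤ n) :
    IsW n (fun k => (((k + n - d).choose n : ℕ) : ℂ)) (X ^ d) := by
  unfold IsW
  have h := PowerSeries.mk_add_choose_mul_one_sub_pow_eq_one (S := ℂ) n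
  have e : PowerSeries.mk (fun k => (((k + n - d).choose n : ℕ) : ℂ)) =
      PowerSeries.X ^ d * PowerSeries.mk (fun k => (((n + k).choose n : ℕ) : ℂ)) := by
    ext k
    rw [PowerSeries.coeff_X_pow_mul', PowerSeries.coeff_mk]
    split_ifs with hk
    · rw [PowerSeries.coeff_mk]
      congr 2
      omega
    · rw [Nat.choose_eq_zero_of_lt (by omega)]; simp
  rw [e, Polynomial.coe_pow, Polynomial.coe_X]
  calc PowerSeries.X ^ d = PowerSeries.X ^ d *
        (PowerSeries.mk (fun k => (((n + k).choose n : ℕ) : ℂ)) * (1 - PowerSeries.X) ^ (n + 1)) := by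
          rw [h, mul_one]
    _ = _ := by ring

theorem isW_desc {n : ℕ} {ι : Type} (s : Finset ι) (d : ι → ℕ) (c : ι → ℤ) (hd : ∀ i ∈ s, d i ≤ n)
    (p : ℕ → ℤ) (hp : ∀ k, ∑ i ∈ s, c i * (((k + n - d i).choose n : ℕ) : ℤ) = p k) :
    IsW n (fun k => (p k : ℂ)) (∑ i ∈ s, C (c i : ℂ) * X ^ (d i)) := by
  have h := isW_sum s (fun i k => (c i : ℂ) * (((k + n - d i).choose n : ℕ) : ℂ))
    (fun i => C (c i : ℂ) * X ^ (d i)) (fun i hi => isW_C_mul _ (isW_X_pow n (d i) (hd i hi)))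
  convert h using 2 with k
  rw [← hp k]
  push_cast
  rfl

/-- The numerators of `∑ ((2k+1)^n ± 1) t^k` have only real zeros. -/
theorem isW_two (n : ℕ) (e : ℤˣ) (w : ℂ[X])
    (hw : IsW n (fun k => (2 * (k : ℂ) + 1) ^ n + ((e : ℤ) : ℂ)) w) (hn : 1 ≤ n) : Stab w := by
  set cc : ℕ → ℝ := fun j => (n.choose j : ℝ) * (1 + ((e : ℤ) : ℝ) * (-1) ^ j) with hcc
  have hc0 : ∀ j, 0 ≤ cc j := by
    intro j
    rw [hcc]
    apply mul_nonneg (Nat.cast_nonneg _)
    rcases Int.units_eq_one_or e with h | h <;> rcases neg_one_pow_eq_or ℝ j with h' | h' <;>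
      rw [h, h'] <;> norm_num
  -- expansion
  have hexp : ∀ k : ℕ, (2 * (k : ℂ) + 1) ^ n + ((e : ℤ) : ℂ) =
      (cc 0 : ℂ) * ((k : ℂ) + 1) ^ n + ∑ j ∈ Finset.Icc 1 n, (cc j : ℂ) *
        ((k : ℂ) ^ j * ((k : ℂ) + 1) ^ (n - j)) := by
    intro k
    have e1 : (2 * (k : ℂ) + 1) ^ n = ∑ j ∈ Finset.range (n + 1), (k : ℂ) ^ j * ((k : ℂ) + 1) ^ (n - j) * (n.choose j : ℂ) := by
      rw [← add_pow]; ring_nf
    have e2 : (1 : ℂ) = ∑ j ∈ Finset.range (n + 1), (-(k : ℂ)) ^ j * ((k : ℂ) + 1) ^ (n - j) * (n.choose j : ℂ) := by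
      rw [← add_pow]; ring_nf
    have e3 : ((e : ℤ) : ℂ) = ((e : ℤ) : ℂ) * ∑ j ∈ Finset.range (n + 1), (-(k : ℂ)) ^ j * ((k : ℂ) + 1) ^ (n - j) * (n.choose j : ℂ) := by
      rw [← e2, mul_one]
    rw [e1, e3, Finset.mul_sum, ← Finset.sum_add_distrib]
    have e4 : ∀ j ∈ Finset.range (n + 1), (k : ℂ) ^ j * ((k : ℂ) + 1) ^ (n - j) * (n.choose j : ℂ) +
        ((e : ℤ) : ℂ) * ((-(k : ℂ)) ^ j * ((k : ℂ) + 1) ^ (n - j) * (n.choose j : ℂ)) =
        (cc j : ℂ) * ((k : ℂ) ^ j * ((k : ℂ) + 1) ^ (n - j)) := by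
      intro j _
      rw [hcc, neg_pow]
      push_cast
      ring
    rw [Finset.sum_congr rfl e4, Finset.range_eq_Ico, Finset.sum_eq_sum_Ico_succ_bot (by omega)]
    simp only [pow_zero, one_mul, Nat.sub_zero]
    rfl
  have hW : IsW n (fun k => (2 * (k : ℂ) + 1) ^ n + ((e : ℤ) : ℂ))
      (C (cc 0 : ℂ) * EA n + ∑ j ∈ Finset.Icc 1 n, C (cc j : ℂ) * EB n j) := by
    have h1 := isW_add (isW_C_mul (cc 0 : ℂ) (isW_EA n)) (isW_sum (Finset.Icc 1 n)
      (fun j k => (cc j : ℂ) * ((k : ℂ) ^ j * ((k : ℂ) + 1) ^ (n - j))) (fun j => C (cc j : ℂ) * EB n j)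
      (fun j hj => isW_C_mul _ (isW_EB n j (Finset.mem_Icc.1 hj).1 (Finset.mem_Icc.1 hj).2)))
    convert h1 using 2 with k
    rw [hexp k]
  have hw2 := isW_unique hw hW
  subst hw2
  intro z hz h0
  have hA := EA_stab n z hz
  rw [eval_add, eval_mul, eval_C, eval_finsetSum] at h0
  have h3 : (cc 0 : ℂ) + ∑ j ∈ Finset.Icc 1 n, (cc j : ℂ) * ((EB n j).eval z / (EA n).eval z) = 0 := by
    have : (cc 0 : ℂ) + ∑ j ∈ Finset.Icc 1 n, (cc j : ℂ) * ((EB n j).eval z / (EA n).eval z) =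
        ((cc 0 : ℂ) * (EA n).eval z + ∑ j ∈ Finset.Icc 1 n, (C (cc j : ℂ) * EB n j).eval z) / (EA n).eval z := by
      rw [add_div, mul_div_assoc, div_self hA, mul_one, Finset.sum_div]
      congr 1
      refine Finset.sum_congr rfl fun j _ => ?_
      rw [eval_mul, eval_C, mul_div_assoc]
    rw [this, h0, zero_div]
  have h4 := congrArg Complex.im h3
  rw [Complex.add_im, Complex.ofReal_im, zero_add, Complex.im_sum, Complex.zero_im] at h4
  have h5 : ∀ j ∈ Finset.Icc 1 n, 0 ≤ ((cc j : ℂ) * ((EB n j).eval z / (EA n).eval z)).im := by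
    intro j hj
    rw [Complex.im_ofReal_mul]
    exact mul_nonneg (hc0 j) (EB_im_pos n j (Finset.mem_Icc.1 hj).1 (Finset.mem_Icc.1 hj).2 z hz).le
  rw [Finset.sum_eq_zero_iff_of_nonneg h5] at h4
  have h6 : ∀ j ∈ Finset.Icc 1 n, cc j = 0 := by
    intro j hj
    have := h4 j hj
    rw [Complex.im_ofReal_mul] at this
    rcases mul_eq_zero.1 this with h | h
    · exact h
    · exact absurd h (EB_im_pos n j (Finset.mem_Icc.1 hj).1 (Finset.mem_Icc.1 hj).2 z hz).ne'
  have h7 : cc 0 = 0 := by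
    have h8 : ∑ j ∈ Finset.Icc 1 n, (cc j : ℂ) * ((EB n j).eval z / (EA n).eval z) = 0 := by
      apply Finset.sum_eq_zero
      intro j hj
      rw [h6 j hj]; simp
    rw [h8, add_zero] at h3
    exact_mod_cast h3
  have h9 := h6 1 (Finset.mem_Icc.2 ⟨le_rfl, hn⟩)
  rw [hcc] at h7 h9
  simp only [Nat.choose_zero_right, Nat.cast_one, one_mul, pow_zero, mul_one, Nat.choose_one_right,
    pow_one] at h7 h9
  have hnp : (0 : ℝ) < n := by exact_mod_cast hn
  rcases mul_eq_zero.1 h9 with h | h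
  · exact absurd h hnp.ne'
  · linarith

end Pool.Agent.R578.SE
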