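import Mathlib
import Pool.Agent.R578.SE.Ser

/-!
# Even and odd parts, and basic facts on the Eulerian polynomials
-/

namespace Pool.Agent.R578.SE

open Polynomial

/-- substitution `x ↦ -x` as a ring homomorphism -/
noncomputable def ng : ℂ[X] →+* ℂ[X] := Polynomial.compRingHom (-X)

theorem ng_apply (f : ℂ[X]) : ng f = f.comp (-X) := rfl

theorem ng_X : ng X = -X := by simp [ng_apply]

theorem ng_C (c : ℂ) : ng (C c) = C c := by simp [ng_apply]

theorem coe_ng (f : ℂ[X]) : ((ng f : ℂ[X]) : PowerSeries ℂ) = PowerSeries.rescale (-1) (f : PowerSeries ℂ) := by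
  induction f using Polynomial.induction_on' with
  | add p q hp hq => rw [map_add, Polynomial.coe_add, hp, hq, Polynomial.coe_add, map_add]
  | monomial n a =>
    rw [← C_mul_X_pow_eq_monomial, map_mul, map_pow, ng_C, ng_X]
    push_cast
    rw [map_mul, map_pow]
    congr 1
    · ext k
      rw [PowerSeries.coeff_rescale, PowerSeries.coeff_C]
      split_ifs with h
      · subst h; simp
      · simp
    · congr 1
      ext k
      rw [PowerSeries.coeff_rescale, map_neg, PowerSeries.coeff_X]
      split_ifs with h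
      · subst h; simp
      · simp

theorem coe_expand (f : ℂ[X]) : ((Polynomial.expand ℂ 2 f : ℂ[X]) : PowerSeries ℂ) =
    PowerSeries.expand 2 two_ne_zero (f : PowerSeries ℂ) := by
  ext k
  rw [Polynomial.coeff_coe, Polynomial.coeff_expand (by norm_num), PowerSeries.coeff_expand,
    Polynomial.coeff_coe]

theorem coe_two : ((2 : ℂ[X]) : PowerSeries ℂ) = 2 := by
  rw [show (2 : ℂ[X]) = 1 + 1 by norm_num, Polynomial.coe_add, Polynomial.coe_one]; norm_num

/-- even part of `(1+x)^(n+1) A_n(x)` -/
theorem even_part (n : ℕ) (B : ℂ[X]) (hB : IsW n (fun k => (2 * (k : ℂ) + 1) ^ n) B) :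
    2 * Polynomial.expand ℂ 2 B = (1 + X) ^ (n + 1) * EA n + (1 - X) ^ (n + 1) * ng (EA n) := by
  apply Polynomial.coe_injective ℂ
  have hA := isW_EA n
  unfold IsW at hB hA
  rw [Polynomial.coe_mul, coe_expand, hB, Polynomial.coe_add, Polynomial.coe_mul, Polynomial.coe_mul,
    coe_ng, hA]
  push_cast
  simp only [map_mul, map_pow, map_sub, map_one, PowerSeries.expand_X]
  have hX : PowerSeries.rescale (-1 : ℂ) (PowerSeries.X) = -PowerSeries.X := by
    ext k
    rw [PowerSeries.coeff_rescale, map_neg, PowerSeries.coeff_X]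
    split_ifs with h
    · subst h; simp
    · simp
  rw [hX]
  have key : 2 * PowerSeries.expand 2 two_ne_zero (PowerSeries.mk fun k : ℕ => (2 * (k : ℂ) + 1) ^ n) =
      PowerSeries.mk (fun k : ℕ => ((k : ℂ) + 1) ^ n) +
      PowerSeries.rescale (-1) (PowerSeries.mk fun k : ℕ => ((k : ℂ) + 1) ^ n) := by
    ext k
    have h2 : (2 : PowerSeries ℂ) = PowerSeries.C (2 : ℂ) := by
      rw [map_ofNat]
    rw [h2, PowerSeries.coeff_C_mul, PowerSeries.coeff_expand, map_add, PowerSeries.coeff_rescale,
      PowerSeries.coeff_mk]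
    rcases Nat.even_or_odd' k with ⟨m, rfl | rfl⟩
    · rw [if_pos (Dvd.intro _ rfl), Nat.mul_div_cancel_left _ (by norm_num), PowerSeries.coeff_mk]
      rw [pow_mul]
      push_cast
      norm_num
      ring
    · rw [if_neg (by omega), pow_succ, pow_mul]
      norm_num
  have e1 : (1 - -PowerSeries.X : PowerSeries ℂ) = 1 + PowerSeries.X := by ring
  have e2 : (1 - PowerSeries.X ^ 2 : PowerSeries ℂ) = (1 + PowerSeries.X) * (1 - PowerSeries.X) := by ring
  rw [e1, e2, mul_pow, coe_two]
  linear_combination (1 + PowerSeries.X) ^ (n+1) * (1 - PowerSeries.X) ^ (n+1) * key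

/-- odd part of `(1+x)^(n+1) A_n(x)` -/
theorem odd_part (n : ℕ) :
    2 * (2 ^ n * (X * Polynomial.expand ℂ 2 (EA n))) =
      (1 + X) ^ (n + 1) * EA n - (1 - X) ^ (n + 1) * ng (EA n) := by
  apply Polynomial.coe_injective ℂ
  have hA := isW_EA n
  unfold IsW at hA
  push_cast
  rw [coe_expand, coe_ng, hA]
  simp only [map_mul, map_pow, map_sub, map_one, PowerSeries.expand_X]
  have hX : PowerSeries.rescale (-1 : ℂ) (PowerSeries.X) = -PowerSeries.X := by
    ext k
    rw [PowerSeries.coeff_rescale, map_neg, PowerSeries.coeff_X]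
    split_ifs with h
    · subst h; simp
    · simp
  rw [hX]
  have key : 2 * (2 ^ n * (PowerSeries.X * PowerSeries.expand 2 two_ne_zero
      (PowerSeries.mk fun k : ℕ => ((k : ℂ) + 1) ^ n))) =
      PowerSeries.mk (fun k : ℕ => ((k : ℂ) + 1) ^ n) -
      PowerSeries.rescale (-1) (PowerSeries.mk fun k : ℕ => ((k : ℂ) + 1) ^ n) := by
    ext k
    have h2 : (2 * (2 ^ n * (PowerSeries.X * PowerSeries.expand 2 two_ne_zero
      (PowerSeries.mk fun k : ℕ => ((k : ℂ) + 1) ^ n))) : PowerSeries ℂ) =
      PowerSeries.C (2 * 2 ^ n : ℂ) * (PowerSeries.X * PowerSeries.expand 2 two_ne_zero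
      (PowerSeries.mk fun k : ℕ => ((k : ℂ) + 1) ^ n)) := by
      rw [map_mul, map_pow, map_ofNat]; ring
    rw [h2, PowerSeries.coeff_C_mul, map_sub, PowerSeries.coeff_rescale, PowerSeries.coeff_mk]
    cases k with
    | zero => simp
    | succ k =>
      rw [PowerSeries.coeff_succ_X_mul, PowerSeries.coeff_expand]
      rcases Nat.even_or_odd' k with ⟨m, rfl | rfl⟩
      · rw [if_pos (Dvd.intro _ rfl), Nat.mul_div_cancel_left _ (by norm_num), PowerSeries.coeff_mk]
        rw [pow_succ (-1 : ℂ), pow_mul]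
        push_cast
        have : (2 * (m : ℂ) + 1 + 1) = 2 * ((m : ℂ) + 1) := by ring
        rw [this, mul_pow]
        norm_num
        ring
      · rw [if_neg (by omega), show 2 * m + 1 + 1 = 2 * (m + 1) by ring, pow_mul]
        norm_num
  have e1 : (1 - -PowerSeries.X : PowerSeries ℂ) = 1 + PowerSeries.X := by ring
  have e2 : (1 - PowerSeries.X ^ 2 : PowerSeries ℂ) = (1 + PowerSeries.X) * (1 - PowerSeries.X) := by ring
  rw [e1, e2, mul_pow, coe_two]
  linear_combination (1 + PowerSeries.X) ^ (n+1) * (1 - PowerSeries.X) ^ (n+1) * key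

/-- nonnegative real coefficients -/
def NN (h : ℂ[X]) : Prop := ∀ j, ∃ r : ℝ, 0 ≤ r ∧ h.coeff j = (r : ℂ)

theorem M1_coeff (n j : ℕ) (h : ℂ[X]) :
    (M1 n h).coeff j = ((j : ℂ) + 1) * h.coeff j +
      (if j = 0 then 0 else ((n : ℂ) + 1 - j) * h.coeff (j - 1)) := by
  unfold M1
  have e : X * (1 - X) * derivative h + C ((n : ℂ) + 1) * X * h + (1 - X) * h =
      X * derivative h - X * (X * derivative h) + C ((n : ℂ) + 1) * (X * h) + h - X * h := by ring
  rw [e]
  cases j with
  | zero => simp
  | succ j =>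
    simp only [coeff_add, coeff_sub, coeff_X_mul, coeff_C_mul, coeff_derivative]
    cases j with
    | zero => simp; ring
    | succ j =>
      simp only [coeff_X_mul, coeff_derivative]
      simp
      ring

theorem M1_NN (n : ℕ) (h : ℂ[X]) (hd : h.natDegree ≤ n) (hh : NN h) : NN (M1 n h) := by
  intro j
  rw [M1_coeff]
  obtain ⟨r, hr, er⟩ := hh j
  cases j with
  | zero => exact ⟨((0:ℕ) + 1) * r, by positivity, by rw [if_pos rfl, er]; push_cast; ring⟩
  | succ j =>
    obtain ⟨s, hs, es⟩ := hh j
    rw [if_neg (by omega), Nat.add_sub_cancel, er, es]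
    by_cases hj : j ≤ n
    · refine ⟨((j + 1 : ℕ) + 1) * r + ((n : ℝ) + 1 - (j + 1 : ℕ)) * s, ?_, ?_⟩
      · have : (j : ℝ) ≤ n := by exact_mod_cast hj
        have h2 : 0 ≤ ((n : ℝ) + 1 - (j + 1 : ℕ)) := by push_cast; linarith
        positivity
      · push_cast; ring
    · have : h.coeff j = 0 := coeff_eq_zero_of_natDegree_lt (by omega)
      rw [es] at this
      have hs0 : s = 0 := by exact_mod_cast this
      refine ⟨((j + 1 : ℕ) + 1) * r, by positivity, ?_⟩
      rw [hs0]; push_cast; ring

theorem EA_NN (n : ℕ) : NN (EA n) := by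
  induction n with
  | zero =>
    intro j
    have : EA 0 = 1 := rfl
    rw [this, coeff_one]
    split_ifs
    · exact ⟨1, by norm_num, by simp⟩
    · exact ⟨0, le_rfl, by simp⟩
  | succ n ih => rw [EA_succ]; exact M1_NN n _ (EA_natDegree n) ih

theorem NN_eval_conj {h : ℂ[X]} (hh : NN h) (z : ℂ) :
    h.eval ((starRingEnd ℂ) z) = (starRingEnd ℂ) (h.eval z) := by
  rw [eval_eq_sum_range, eval_eq_sum_range, map_sum]
  refine Finset.sum_congr rfl fun j _ => ?_
  obtain ⟨r, _, er⟩ := hh j
  rw [er, map_mul, map_pow, Complex.conj_ofReal]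

theorem EA_coeff_zero (n : ℕ) : (EA n).coeff 0 = 1 := by
  induction n with
  | zero => simp [EA, itM]
  | succ n ih => rw [EA_succ, M1_coeff, ih]; simp

theorem EA_coeff_top (n : ℕ) : (EA (n + 1)).coeff n = 1 := by
  induction n with
  | zero => exact EA_coeff_zero 1
  | succ n ih =>
    rw [EA_succ, M1_coeff, if_neg (by omega), Nat.add_sub_cancel, ih,
      coeff_eq_zero_of_natDegree_lt (by have := EA_natDegree_lt (n + 1) (by omega); omega)]
    push_cast
    ring

theorem EA_monic (n : ℕ) : (EA (n + 1)).Monic := by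
  apply monic_of_natDegree_le_of_coeff_eq_one n
  · have := EA_natDegree_lt (n + 1) (by omega); omega
  · exact EA_coeff_top n

theorem EA_natDegree_eq (n : ℕ) : (EA (n + 1)).natDegree = n := by
  have h1 := EA_natDegree_lt (n + 1) (by omega)
  apply le_antisymm (by omega)
  apply le_natDegree_of_ne_zero
  rw [EA_coeff_top]; norm_num

theorem EA_root_real (n : ℕ) (z : ℂ) (hz : (EA n).eval z = 0) : ∃ c : ℝ, 0 < c ∧ z = -(c : ℂ) := by
  have him : z.im = 0 := by
    rcases lt_trichotomy z.im 0 with h | h | h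
    · exfalso
      apply EA_stab n ((starRingEnd ℂ) z) (by rw [Complex.conj_im]; linarith)
      rw [NN_eval_conj (EA_NN n), hz, map_zero]
    · exact h
    · exact absurd hz (EA_stab n z h)
  refine ⟨-z.re, ?_, ?_⟩
  · by_contra hc
    push Not at hc
    have hre : 0 ≤ z.re := by linarith
    have hz2 : z = (z.re : ℂ) := Complex.ext (by simp) (by simp [him])
    rw [hz2, eval_eq_sum_range] at hz
    have h1 : ∀ j ∈ Finset.range ((EA n).natDegree + 1),
        0 ≤ ((EA n).coeff j * (z.re : ℂ) ^ j).re := by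
      intro j _
      obtain ⟨r, hr, er⟩ := EA_NN n j
      rw [er, ← Complex.ofReal_pow, ← Complex.ofReal_mul, Complex.ofReal_re]
      positivity
    have h2 := congrArg Complex.re hz
    rw [Complex.re_sum, Complex.zero_re, Finset.sum_eq_zero_iff_of_nonneg h1] at h2
    have h3 := h2 0 (by simp)
    rw [EA_coeff_zero] at h3
    simp at h3
  · apply Complex.ext
    · simp
    · simp [him]

/-- palindromicity -/
theorem EA_pal (n : ℕ) (z : ℂ) (hz : z ≠ 0) :
    z ^ n * (EA (n + 1)).eval z⁻¹ = (EA (n + 1)).eval z := by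
  -- coefficient symmetry
  have hsym : ∀ n j, j ≤ n → (EA (n + 1)).coeff j = (EA (n + 1)).coeff (n - j) := by
    intro n
    induction n with
    | zero => intro j hj; have : j = 0 := by omega
              subst this; rfl
    | succ n ih =>
      intro j hj
      rw [EA_succ, M1_coeff, M1_coeff]
      have hz1 : (EA (n+1)).coeff (n+1) = 0 :=
        coeff_eq_zero_of_natDegree_lt (by rw [EA_natDegree_eq]; omega)
      rcases Nat.eq_zero_or_pos j with h0 | h0
      · subst h0
        rw [if_pos rfl, if_neg (by omega)]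
        simp only [Nat.sub_zero, Nat.add_sub_cancel]
        rw [hz1, EA_coeff_zero, EA_coeff_top]
        push_cast; ring
      · rcases Nat.eq_or_lt_of_le hj with h1 | h1
        · subst h1
          rw [if_neg (by omega), Nat.sub_self, if_pos rfl, hz1, Nat.add_sub_cancel, EA_coeff_top,
            EA_coeff_zero]
          push_cast; ring
        · rw [if_neg (by omega), if_neg (by omega), ih j (by omega), ih (j - 1) (by omega)]
          have e1 : n - (j - 1) = n + 1 - j := by omega
          have e2 : n + 1 - j - 1 = n - j := by omega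
          rw [e1, e2]
          have e3 : ((n + 1 - j : ℕ) : ℂ) = (n : ℂ) + 1 - j := by
            rw [Nat.cast_sub (by omega)]; push_cast; ring
          rw [e3]
          push_cast
          ring
  rw [eval_eq_sum_range, eval_eq_sum_range, EA_natDegree_eq, Finset.mul_sum,
    ← Finset.sum_range_reflect]
  refine Finset.sum_congr rfl fun j hj => ?_
  rw [Finset.mem_range] at hj
  have e : n + 1 - 1 - j = n - j := by omega
  rw [e, hsym n j (by omega), inv_pow]
  have e2 : z ^ n = z ^ (n - j) * z ^ j := by rw [← pow_add]; congr 1; omega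
  rw [e2]
  field_simp

end Pool.Agent.R578.SE
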