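import Mathlib
import Pool.Agent.R578.SE.EO

/-!
# Type D: an inequality in the right half plane and the Hermite-Biehler argument
-/

namespace Pool.Agent.R578.SE

open Polynomial

theorem inv_pair (S : Multiset ℝ) (hpos : ∀ c ∈ S, 0 < c) (hinv : S.map (fun c => c⁻¹) = S)
    (hcard : 2 ≤ Multiset.card S) : ∃ (c : ℝ) (T : Multiset ℝ), 0 < c ∧ S = c ::ₘ c⁻¹ ::ₘ T ∧
      T.map (fun c => c⁻¹) = T ∧ (∀ c ∈ T, 0 < c) ∧ Multiset.card T + 2 = Multiset.card S := by
  by_cases h : ∃ c ∈ S, c ≠ 1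
  · obtain ⟨c, hc, hc1⟩ := h
    have hcp := hpos c hc
    obtain ⟨T, rfl⟩ := Multiset.exists_cons_of_mem hc
    have h1 : c⁻¹ ∈ c ::ₘ T := by
      rw [← hinv]
      exact Multiset.mem_map_of_mem _ hc
    have hne : c⁻¹ ≠ c := by
      intro h2
      have h3 : c * c = 1 := by
        nth_rewrite 1 [← h2]
        exact inv_mul_cancel₀ hcp.ne'
      exact hc1 (by nlinarith)
    have h2 : c⁻¹ ∈ T := (Multiset.mem_cons.1 h1).resolve_left hne
    obtain ⟨U, rfl⟩ := Multiset.exists_cons_of_mem h2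
    refine ⟨c, U, hcp, rfl, ?_, ?_, ?_⟩
    · simp only [Multiset.map_cons, inv_inv] at hinv
      rw [Multiset.cons_swap] at hinv
      exact (Multiset.cons_inj_right _).1 ((Multiset.cons_inj_right _).1 hinv)
    · intro d hd
      exact hpos d (Multiset.mem_cons_of_mem (Multiset.mem_cons_of_mem hd))
    · simp
  · push Not at h
    have hrep : S = Multiset.replicate (Multiset.card S) 1 := Multiset.eq_replicate.2 ⟨rfl, h⟩
    obtain ⟨k, hk⟩ : ∃ k, Multiset.card S = k + 2 := ⟨Multiset.card S - 2, by omega⟩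
    rw [hk] at hrep
    refine ⟨1, Multiset.replicate k 1, one_pos, ?_, ?_, ?_, ?_⟩
    · rw [hrep, inv_one]
      rw [Multiset.replicate_succ, Multiset.replicate_succ]
    · rw [Multiset.map_replicate, inv_one]
    · intro c hc
      rw [Multiset.eq_of_mem_replicate hc]; exact one_pos
    · rw [Multiset.card_replicate, hk]

/-- factorisation of the Eulerian polynomials -/
theorem EA_fac (N : ℕ) : ∃ S : Multiset ℝ, (∀ c ∈ S, 0 < c) ∧ Multiset.card S = N ∧
    EA (N + 1) = (S.map (fun c : ℝ => X + C (c : ℂ))).prod ∧ S.map (fun c => c⁻¹) = S := by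
  have hsp : (EA (N + 1)).Splits := IsAlgClosed.splits _
  have hne : EA (N + 1) ≠ 0 := (EA_monic N).ne_zero
  obtain ⟨S, hS⟩ : ∃ S : Multiset ℝ, S = (EA (N + 1)).roots.map (fun z => -z.re) := ⟨_, rfl⟩
  have hr : ∀ z ∈ (EA (N + 1)).roots, ∃ c : ℝ, 0 < c ∧ z = -(c : ℂ) := by
    intro z hz
    exact EA_root_real (N + 1) z (mem_roots'.1 hz).2
  have hroots : (EA (N + 1)).roots = S.map (fun c : ℝ => -(c : ℂ)) := by
    rw [hS, Multiset.map_map]
    conv_lhs => rw [← Multiset.map_id (EA (N + 1)).roots]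
    apply Multiset.map_congr rfl
    intro z hz
    obtain ⟨c, _, rfl⟩ := hr z hz
    simp
  have hpos : ∀ c ∈ S, 0 < c := by
    intro c hc
    rw [hS, Multiset.mem_map] at hc
    obtain ⟨z, hz, rfl⟩ := hc
    obtain ⟨c, hc, rfl⟩ := hr z hz
    simpa using hc
  have hcard : Multiset.card S = N := by
    rw [hS, Multiset.card_map, ← hsp.natDegree_eq_card_roots, EA_natDegree_eq]
  have hprod : EA (N + 1) = (S.map (fun c : ℝ => X + C (c : ℂ))).prod := by
    have h := hsp.eq_prod_roots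
    rw [(EA_monic N).leadingCoeff, map_one, one_mul, hroots, Multiset.map_map] at h
    rw [h]
    congr 1
    apply Multiset.map_congr rfl
    intro c _
    simp
  refine ⟨S, hpos, hcard, hprod, ?_⟩
  have hQ : EA (N + 1) = (S.map (fun c : ℝ => C (c : ℂ) * (X + C ((c⁻¹ : ℝ) : ℂ)))).prod := by
    apply Polynomial.eq_of_infinite_eval_eq
    apply Set.Infinite.mono (s := {z : ℂ | z ≠ 0})
    · intro z hz
      rw [Set.mem_ofPred_eq] at hz ⊢
      rw [← EA_pal N z hz, hprod, ← hcard, eval_multiset_prod, eval_multiset_prod, Multiset.map_map,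
        Multiset.map_map]
      clear hcard hprod hroots hS
      induction S using Multiset.induction_on with
      | empty => simp
      | cons a s ih =>
        have ih' := ih (fun c hc => hpos c (Multiset.mem_cons_of_mem hc))
        have ha := hpos a (Multiset.mem_cons_self a s)
        have ha' : (a : ℂ) ≠ 0 := by exact_mod_cast ha.ne'
        rw [Multiset.map_cons, Multiset.prod_cons, Multiset.map_cons, Multiset.prod_cons,
          Multiset.card_cons, pow_succ, ← ih']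
        simp only [Function.comp_apply, eval_add, eval_X, eval_C, eval_mul]
        push_cast
        field_simp
        ring
    · exact (Set.finite_singleton (0 : ℂ)).infinite_compl
  have hroots2 : (EA (N + 1)).roots = S.map (fun c : ℝ => -((c⁻¹ : ℝ) : ℂ)) := by
    rw [hQ, Multiset.prod_map_mul]
    have h1 : (S.map (fun c : ℝ => C (c : ℂ))).prod = C ((S.map (fun c : ℝ => (c : ℂ))).prod) := by
      rw [map_multiset_prod, Multiset.map_map]; rfl
    have h2 : (S.map (fun c : ℝ => (c : ℂ))).prod ≠ 0 := by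
      apply Multiset.prod_ne_zero
      intro h0
      rw [Multiset.mem_map] at h0
      obtain ⟨c, hc, h3⟩ := h0
      have := hpos c hc
      have h4 : c = 0 := by exact_mod_cast h3
      linarith
    rw [h1, roots_C_mul _ h2]
    have h3 : (S.map (fun c : ℝ => X + C ((c⁻¹ : ℝ) : ℂ))) =
        ((S.map (fun c : ℝ => -((c⁻¹ : ℝ) : ℂ))).map (fun a => X - C a)) := by
      rw [Multiset.map_map]
      apply Multiset.map_congr rfl
      intro c _
      simp
    rw [h3, roots_multiset_prod_X_sub_C]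
  rw [hroots] at hroots2
  have h5 : S.map (fun c : ℝ => -(c : ℂ)) = (S.map (fun c => c⁻¹)).map (fun c : ℝ => -(c : ℂ)) := by
    rw [hroots2, Multiset.map_map]; rfl
  have hinj : Function.Injective (fun c : ℝ => -(c : ℂ)) := by
    intro a b h
    have : (a : ℂ) = b := neg_injective h
    exact_mod_cast this
  exact (Multiset.map_injective hinj h5).symm

/-- `ρ_c(x) = (1 + c x)/(x + c)` -/
noncomputable def rho (x : ℂ) (c : ℝ) : ℂ := (1 + c * x) / (x + c)

theorem xc_ne {x : ℂ} (hx : 0 < x.re) {c : ℝ} (hc : 0 < c) : x + c ≠ 0 := by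
  intro h
  have := congrArg Complex.re h
  simp at this
  linarith

theorem x_ne {x : ℂ} (hx : 0 < x.re) : x ≠ 0 := by
  intro h; rw [h] at hx; simp at hx

theorem w_re {x : ℂ} (hx : 0 < x.re) : 0 < (x + x⁻¹).re := by
  rw [Complex.add_re, Complex.inv_re]
  have := Complex.normSq_pos.2 (x_ne hx)
  positivity

theorem wb_ne {w : ℂ} (hw : 0 < w.re) {b : ℝ} (hb : 2 ≤ b) : w + b ≠ 0 := by
  intro h
  have := congrArg Complex.re h
  simp at this
  linarith

theorem rho_sum {x : ℂ} (hx : 0 < x.re) {c : ℝ} (hc : 0 < c) :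
    rho x c + rho x c⁻¹ = (((c + c⁻¹ : ℝ) : ℂ) * (x + x⁻¹) + 4) / ((x + x⁻¹) + ((c + c⁻¹ : ℝ) : ℂ)) := by
  have h1 := xc_ne hx hc
  have h2 := xc_ne hx (inv_pos.2 hc)
  have h3 := x_ne hx
  have hb : 2 ≤ c + c⁻¹ := by
    have := sq_nonneg (c - 1)
    rw [← sub_nonneg]
    have e : c + c⁻¹ - 2 = (c - 1)^2 / c := by field_simp; ring
    rw [e]; positivity
  have h4 := wb_ne (w_re hx) hb
  have hc' : (c : ℂ) ≠ 0 := by exact_mod_cast hc.ne'
  have h5 : (1 + c * x : ℂ) ≠ 0 := by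
    have : (1 + c * x : ℂ) = c * (x + (c⁻¹ : ℝ)) := by push_cast; field_simp; ring
    rw [this]; exact mul_ne_zero hc' h2
  have e2 : rho x c⁻¹ = (x + c) / (1 + c * x) := by
    unfold rho
    rw [div_eq_div_iff h2 h5]
    push_cast
    field_simp
    ring
  have e3 : (x + x⁻¹) + ((c + c⁻¹ : ℝ) : ℂ) = (x + c) * (1 + c * x) / (c * x) := by
    push_cast; field_simp; ring
  have e4 : (((c + c⁻¹ : ℝ) : ℂ) * (x + x⁻¹) + 4) = ((1 + c * x)^2 + (x + c)^2) / (c * x) := by
    push_cast; field_simp; ring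
  rw [e2, e3, e4]
  unfold rho
  field_simp

theorem b_ge {c : ℝ} (hc : 0 < c) : 2 ≤ c + c⁻¹ := by
  rw [← sub_nonneg]
  have e : c + c⁻¹ - 2 = (c - 1)^2 / c := by field_simp; ring
  rw [e]; positivity

/-- nonnegative real part, imaginary part a nonnegative multiple of that of `w` -/
def Qd (w Y : ℂ) : Prop := 0 ≤ Y.re ∧ ∃ κ : ℝ, 0 ≤ κ ∧ Y.im = κ * w.im

theorem Qd.add {w Y Z : ℂ} (h : Qd w Y) (h' : Qd w Z) : Qd w (Y + Z) := by
  obtain ⟨h1, κ, h2, h3⟩ := h
  obtain ⟨h1', κ', h2', h3'⟩ := h'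
  refine ⟨by rw [Complex.add_re]; linarith, κ + κ', by linarith, ?_⟩
  rw [Complex.add_im, h3, h3']; ring

theorem Qd_beta {w : ℂ} (hw : 0 < w.re) {b : ℝ} (hb : 2 ≤ b) : Qd w (((b : ℂ) * w + 4) / (w + b)) := by
  have hne := wb_ne hw hb
  have hpos := Complex.normSq_pos.2 hne
  constructor
  · rw [Complex.div_re]
    have e : ((b : ℂ) * w + 4).re * (w + b).re / Complex.normSq (w + b) +
        ((b : ℂ) * w + 4).im * (w + b).im / Complex.normSq (w + b) =
        (b * (w.re ^ 2 + w.im ^ 2) + b ^ 2 * w.re + 4 * w.re + 4 * b) / Complex.normSq (w + b) := by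
      simp only [Complex.add_re, Complex.mul_re, Complex.ofReal_re, Complex.ofReal_im, Complex.add_im,
        Complex.mul_im, Complex.re_ofNat, Complex.im_ofNat]
      field_simp
      ring
    rw [e]
    have hb0 : 0 ≤ b := by linarith
    positivity
  · refine ⟨(b ^ 2 - 4) / Complex.normSq (w + b), div_nonneg (by nlinarith) hpos.le, ?_⟩
    rw [Complex.div_im]
    simp only [Complex.add_re, Complex.mul_re, Complex.ofReal_re, Complex.ofReal_im, Complex.add_im,
        Complex.mul_im, Complex.re_ofNat, Complex.im_ofNat]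
    field_simp
    ring

theorem norm_add_ge {w a Y : ℂ} (ha : Qd w a) (hY : Qd w Y) : ‖a‖ ≤ ‖a + Y‖ := by
  obtain ⟨h1, κ, h2, h3⟩ := ha
  obtain ⟨h1', κ', h2', h3'⟩ := hY
  rw [← sq_le_sq₀ (norm_nonneg _) (norm_nonneg _), Complex.sq_norm, Complex.sq_norm,
    Complex.normSq_apply, Complex.normSq_apply, Complex.add_re, Complex.add_im]
  have e : 0 ≤ a.im * Y.im := by
    rw [h3, h3']
    have : κ * w.im * (κ' * w.im) = κ * κ' * (w.im * w.im) := by ring
    rw [this]
    have := mul_self_nonneg w.im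
    positivity
  nlinarith [mul_nonneg h1 h1', mul_self_nonneg Y.re, mul_self_nonneg Y.im]

theorem key_quad {w : ℂ} (hw : 0 < w.re) {b : ℝ} (hb : 2 ≤ b) :
    ‖w - 2‖ ^ 2 < ‖w ^ 2 + 2 * b * w + 4‖ := by
  have e1 : ‖w - 2‖ ^ 2 = ‖w ^ 2 - 4 * w + 4‖ := by
    rw [← norm_pow]; congr 1; ring
  rw [e1, ← sq_lt_sq₀ (norm_nonneg _) (norm_nonneg _), Complex.sq_norm, Complex.sq_norm,
    Complex.normSq_apply, Complex.normSq_apply]
  have e2 : (w ^ 2 - 4 * w + 4).re = w.re^2 - w.im^2 - 4 * w.re + 4 := by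
    simp [pow_two]
  have e3 : (w ^ 2 - 4 * w + 4).im = 2 * w.re * w.im - 4 * w.im := by
    simp [pow_two]; ring
  have e4 : (w ^ 2 + 2 * b * w + 4).re = w.re^2 - w.im^2 + 2 * b * w.re + 4 := by
    simp [pow_two]
  have e5 : (w ^ 2 + 2 * b * w + 4).im = 2 * w.re * w.im + 2 * b * w.im := by
    simp [pow_two]; ring
  rw [e2, e3, e4, e5, ← sub_pos]
  have e6 : (w.re^2 - w.im^2 + 2 * b * w.re + 4) * (w.re^2 - w.im^2 + 2 * b * w.re + 4) +
      (2 * w.re * w.im + 2 * b * w.im) * (2 * w.re * w.im + 2 * b * w.im) -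
      ((w.re^2 - w.im^2 - 4 * w.re + 4) * (w.re^2 - w.im^2 - 4 * w.re + 4) +
      (2 * w.re * w.im - 4 * w.im) * (2 * w.re * w.im - 4 * w.im)) =
      (4 * b + 8) * (w.re * (w.re^2 + w.im^2 + 4)) + 4 * (b + 2) * (b - 2) * (w.re^2 + w.im^2) := by
    ring
  rw [e6]
  have h1 : 0 < (4 * b + 8) * (w.re * (w.re^2 + w.im^2 + 4)) := by positivity
  have h2 : 0 ≤ 4 * (b + 2) * (b - 2) * (w.re^2 + w.im^2) := by
    have : 0 ≤ b - 2 := by linarith
    positivity
  linarith

theorem norm_wb {w : ℂ} (hw : 0 < w.re) {b : ℝ} (hb : 2 ≤ b) : ‖w + 2‖ ≤ ‖w + b‖ := by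
  rw [← sq_le_sq₀ (norm_nonneg _) (norm_nonneg _), Complex.sq_norm, Complex.sq_norm,
    Complex.normSq_apply, Complex.normSq_apply]
  simp only [Complex.add_re, Complex.add_im, Complex.ofReal_re, Complex.ofReal_im, Complex.re_ofNat,
    Complex.im_ofNat]
  nlinarith

theorem norm_pair {x : ℂ} (hx : 0 < x.re) {c : ℝ} (hc : 0 < c) :
    ‖1 + x‖ ^ 2 ≤ ‖x + c‖ * ‖x + (c⁻¹ : ℝ)‖ := by
  have h3 := x_ne hx
  have hc' : (c : ℂ) ≠ 0 := by exact_mod_cast hc.ne'
  have e1 : (x + c) * (x + (c⁻¹ : ℝ)) = x * ((x + x⁻¹) + ((c + c⁻¹ : ℝ) : ℂ)) := by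
    push_cast; field_simp; ring
  have e2 : (1 + x) ^ 2 = x * ((x + x⁻¹) + 2) := by field_simp; ring
  rw [← norm_pow, ← norm_mul, e1, e2, norm_mul, norm_mul]
  exact mul_le_mul_of_nonneg_left (norm_wb (w_re hx) (b_ge hc)) (norm_nonneg _)

theorem prod_bound {x : ℂ} (hx : 0 < x.re) (T : Multiset ℝ) (hpos : ∀ c ∈ T, 0 < c)
    (hinv : T.map (fun c => c⁻¹) = T) :
    ‖1 + x‖ ^ (Multiset.card T) ≤ (T.map (fun c : ℝ => ‖x + c‖)).prod := by
  have h1 : (T.map (fun c : ℝ => ‖x + c‖)).prod = (T.map (fun c : ℝ => ‖x + (c⁻¹ : ℝ)‖)).prod := by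
    conv_lhs => rw [← hinv]
    rw [Multiset.map_map]; rfl
  have h2 : (‖1 + x‖ ^ (Multiset.card T)) ^ 2 ≤ ((T.map (fun c : ℝ => ‖x + c‖)).prod) ^ 2 := by
    have h3 : ((T.map (fun c : ℝ => ‖x + c‖)).prod) ^ 2 =
        (T.map (fun c : ℝ => ‖x + c‖ * ‖x + (c⁻¹ : ℝ)‖)).prod := by
      rw [Multiset.prod_map_mul, ← h1, sq]
    rw [h3, ← pow_mul, mul_comm, pow_mul]
    clear h1 h3 hinv
    induction T using Multiset.induction_on with
    | empty => simp
    | cons a s ih =>
      have ih' := ih (fun c hc => hpos c (Multiset.mem_cons_of_mem hc))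
      rw [Multiset.map_cons, Multiset.prod_cons, Multiset.card_cons, pow_succ, mul_comm]
      exact mul_le_mul (norm_pair hx (hpos a (Multiset.mem_cons_self a s))) ih' (by positivity)
        (by positivity)
  have h4 : 0 ≤ (T.map (fun c : ℝ => ‖x + c‖)).prod := by
    apply Multiset.prod_nonneg
    intro a ha
    rw [Multiset.mem_map] at ha
    obtain ⟨c, _, rfl⟩ := ha
    exact norm_nonneg _
  exact (sq_le_sq₀ (by positivity) h4).1 h2

theorem rho_Qd {x : ℂ} (hx : 0 < x.re) (T : Multiset ℝ) (hpos : ∀ c ∈ T, 0 < c)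
    (hinv : T.map (fun c => c⁻¹) = T) : Qd (x + x⁻¹) (T.map (rho x)).sum := by
  have h1 : (T.map (rho x)).sum = (T.map (fun c => rho x c⁻¹)).sum := by
    conv_lhs => rw [← hinv]
    rw [Multiset.map_map]; rfl
  have h2 : 2 * (T.map (rho x)).sum = (T.map (fun c => rho x c + rho x c⁻¹)).sum := by
    rw [Multiset.sum_map_add, ← h1]; ring
  have h3 : Qd (x + x⁻¹) (T.map (fun c => rho x c + rho x c⁻¹)).sum := by
    clear h1 h2 hinv
    induction T using Multiset.induction_on with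
    | empty => exact ⟨by simp, 0, le_rfl, by simp⟩
    | cons a s ih =>
      rw [Multiset.map_cons, Multiset.sum_cons]
      have ha := hpos a (Multiset.mem_cons_self a s)
      refine Qd.add ?_ (ih (fun c hc => hpos c (Multiset.mem_cons_of_mem hc)))
      rw [rho_sum hx ha]
      exact Qd_beta (w_re hx) (b_ge ha)
  rw [← h2] at h3
  obtain ⟨h4, κ, h5, h6⟩ := h3
  rw [Complex.mul_re, Complex.re_ofNat, Complex.im_ofNat] at h4
  rw [Complex.mul_im, Complex.re_ofNat, Complex.im_ofNat] at h6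
  exact ⟨by linarith, κ / 2, by linarith, by linarith⟩

/-- `G_n(x) = x(1-x²)A'(x) + (1+(n-1)x²)A(x)` with `A = A_(n-1)`, here `n = N + 2` -/
noncomputable def GG (N : ℕ) : ℂ[X] :=
  X * (1 - X ^ 2) * derivative (EA (N + 1)) + (1 + C ((N : ℂ) + 1) * X ^ 2) * EA (N + 1)

theorem GG_eq (N : ℕ) : (1 + X) * EA (N + 2) - C ((N : ℂ) + 2) * X * EA (N + 1) = GG N := by
  rw [EA_succ (N + 1)]
  unfold M1 GG
  push_cast
  simp only [map_add, map_one, map_ofNat]
  ring

theorem GG_bound (N : ℕ) (hN : 2 ≤ N) (x : ℂ) (hx : 0 < x.re) :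
    ‖1 + x‖ ^ (N - 2) * ‖1 - x‖ ^ 4 < ‖(GG N).eval x‖ := by
  obtain ⟨S, hpos, hcard, hprod, hinv⟩ := EA_fac N
  have h0 : (EA (N + 1)).eval x ≠ 0 := by
    intro h
    obtain ⟨c, hc, h2⟩ := EA_root_real (N + 1) x h
    rw [h2] at hx
    simp at hx
    linarith
  have hx0 := x_ne hx
  have hev : (EA (N + 1)).eval x = (S.map (fun c : ℝ => x + c)).prod := by
    rw [hprod, eval_multiset_prod, Multiset.map_map]
    congr 1
    apply Multiset.map_congr rfl
    intro c _
    simp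
  have hder : (derivative (EA (N + 1))).eval x = (EA (N + 1)).eval x *
      (S.map (fun c : ℝ => 1 / (x + c))).sum := by
    have hsp : (EA (N + 1)).Splits := IsAlgClosed.splits _
    have hroots : (EA (N + 1)).roots = S.map (fun c : ℝ => -(c : ℂ)) := by
      have h3 : (S.map (fun c : ℝ => X + C (c : ℂ))) =
          ((S.map (fun c : ℝ => -(c : ℂ))).map (fun a => X - C a)) := by
        rw [Multiset.map_map]
        apply Multiset.map_congr rfl
        intro c _
        simp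
      rw [hprod, h3, roots_multiset_prod_X_sub_C]
    rw [hsp.eval_derivative_eq_eval_mul_sum h0, hroots, Multiset.map_map]
    congr 3
    funext c
    simp
  have hG : (GG N).eval x = (S.map (fun c : ℝ => x + c)).prod * (x * ((x + x⁻¹) + (S.map (rho x)).sum)) := by
    have e1 : (GG N).eval x = (EA (N + 1)).eval x *
        (x * (1 - x ^ 2) * (S.map (fun c : ℝ => 1 / (x + c))).sum + (1 + ((N : ℂ) + 1) * x ^ 2)) := by
      unfold GG
      simp only [eval_add, eval_mul, eval_sub, eval_X, eval_one, eval_pow, eval_C]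
      rw [hder]; ring
    rw [e1, hev]
    congr 1
    have e2 : x * (1 - x ^ 2) * (S.map (fun c : ℝ => 1 / (x + c))).sum + (Multiset.card S : ℂ) * x ^ 2 =
        x * (S.map (rho x)).sum := by
      have hpos' := hpos
      clear hcard hprod hinv hev hder e1
      induction S using Multiset.induction_on with
      | empty => simp
      | cons a s ih =>
        have ih' := ih (fun c hc => hpos c (Multiset.mem_cons_of_mem hc))
          (fun c hc => hpos c (Multiset.mem_cons_of_mem hc))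
        have ha := xc_ne hx (hpos a (Multiset.mem_cons_self a s))
        rw [Multiset.map_cons, Multiset.sum_cons, Multiset.map_cons, Multiset.sum_cons,
          Multiset.card_cons, mul_add, mul_add, ← ih']
        unfold rho
        push_cast
        field_simp
        ring
    rw [hcard] at e2
    have e3 : x * ((x + x⁻¹) + (S.map (rho x)).sum) = x ^ 2 + 1 + x * (S.map (rho x)).sum := by
      field_simp
    rw [e3, ← e2]
    ring
  obtain ⟨c, T, hc, rfl, hTinv, hTpos, hTc⟩ := inv_pair S hpos hinv (by rw [hcard]; exact hN)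
  set w := x + x⁻¹ with hw
  have hwre : 0 < w.re := w_re hx
  set b : ℝ := c + c⁻¹ with hb
  have hb2 : 2 ≤ b := b_ge hc
  have hTcard : Multiset.card T = N - 2 := by omega
  rw [hG, Multiset.map_cons, Multiset.prod_cons, Multiset.map_cons, Multiset.prod_cons,
    Multiset.map_cons, Multiset.sum_cons, Multiset.map_cons, Multiset.sum_cons]
  have e5 : w + (rho x c + (rho x c⁻¹ + (T.map (rho x)).sum)) =
      (w + ((b : ℂ) * w + 4) / (w + b)) + (T.map (rho x)).sum := by
    rw [← add_assoc (rho x c), rho_sum hx hc, ← hw, ← hb]; ring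
  rw [e5]
  have hQa : Qd w (w + ((b : ℂ) * w + 4) / (w + b)) :=
    Qd.add ⟨hwre.le, 1, zero_le_one, by ring⟩ (Qd_beta hwre hb2)
  have hge := norm_add_ge hQa (rho_Qd hx T hTpos hTinv)
  have hPT := prod_bound hx T hTpos hTinv
  rw [hTcard] at hPT
  have hwb := wb_ne hwre hb2
  have e6 : (x + c) * (x + (c⁻¹ : ℝ)) = x * (w + b) := by
    have hc' : (c : ℂ) ≠ 0 := by exact_mod_cast hc.ne'
    rw [hw, hb]; push_cast; field_simp; ring
  have e7 : ‖(x + c) * ((x + (c⁻¹ : ℝ)) * (T.map (fun c : ℝ => x + (c:ℂ))).prod) * (x * ((w + ((b : ℂ) * w + 4) / (w + b)) +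
      (T.map (rho x)).sum))‖ = ‖x * (w + b)‖ * (T.map (fun c : ℝ => ‖x + c‖)).prod * (‖x‖ *
      ‖(w + ((b : ℂ) * w + 4) / (w + b)) + (T.map (rho x)).sum‖) := by
    rw [← mul_assoc (x + (c:ℂ)), e6, norm_mul, norm_mul (x * (w + b)), norm_mul x (_ + (T.map (rho x)).sum)]
    congr 2
    have : (T.map (fun c : ℝ => ‖x + c‖)).prod = ((T.map (fun c : ℝ => x + (c:ℂ))).map norm).prod := by
      rw [Multiset.map_map]; rfl
    rw [this]
    exact (map_multiset_prod (normHom : ℂ →*₀ ℝ) _)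
  rw [e7]
  have hx1 : 0 < ‖x‖ := norm_pos_iff.2 hx0
  have hP0 : 0 < (T.map (fun c : ℝ => ‖x + c‖)).prod := by
    refine lt_of_lt_of_le ?_ hPT
    apply pow_pos
    rw [norm_pos_iff]
    have := xc_ne hx one_pos
    rw [Complex.ofReal_one, add_comm] at this
    exact this
  calc ‖1 + x‖ ^ (N - 2) * ‖1 - x‖ ^ 4
      ≤ (T.map (fun c : ℝ => ‖x + c‖)).prod * ‖1 - x‖ ^ 4 :=
        mul_le_mul_of_nonneg_right hPT (by positivity)
    _ = (T.map (fun c : ℝ => ‖x + c‖)).prod * (‖x‖ ^ 2 * ‖w - 2‖ ^ 2) := by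
        congr 1
        have : (1 - x) ^ 2 = x * (w - 2) := by rw [hw]; field_simp; ring
        have h8 : ‖1 - x‖ ^ 2 = ‖x‖ * ‖w - 2‖ := by rw [← norm_pow, this, norm_mul]
        calc ‖1 - x‖ ^ 4 = (‖1 - x‖ ^ 2) ^ 2 := by ring
          _ = _ := by rw [h8]; ring
    _ < (T.map (fun c : ℝ => ‖x + c‖)).prod * (‖x‖ ^ 2 * ‖w ^ 2 + 2 * b * w + 4‖) := by
        apply mul_lt_mul_of_pos_left _ hP0
        exact mul_lt_mul_of_pos_left (key_quad hwre hb2) (by positivity)
    _ = ‖x * (w + b)‖ * (T.map (fun c : ℝ => ‖x + c‖)).prod * (‖x‖ *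
          ‖w + ((b : ℂ) * w + 4) / (w + b)‖) := by
        have : w ^ 2 + 2 * b * w + 4 = (w + b) * (w + ((b : ℂ) * w + 4) / (w + b)) := by
          field_simp; ring
        rw [this, norm_mul, norm_mul]; ring
    _ ≤ _ := by
        apply mul_le_mul_of_nonneg_left _ (by positivity)
        exact mul_le_mul_of_nonneg_left hge hx1.le

end Pool.Agent.R578.SE
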