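import Mathlib
import Pool.Agent.R578.SE.HB

/-!
# Type D: real zeros
-/

namespace Pool.Agent.R578.SE

open Polynomial

/-- signed type D (and B) polynomial of degree `n = N + 2` -/
noncomputable def CT (n : ℕ) : ℂ[X] := if Even n then (1 - X) ^ n else (1 + X) * (1 - X) ^ (n - 1)

theorem isW_level {m : ℕ} {p : ℕ → ℂ} {w : ℂ[X]} (h : IsW m p w) (j : ℕ) :
    IsW (m + j) p ((1 - X) ^ j * w) := by
  unfold IsW at *
  push_cast
  rw [h]
  ring

theorem isW_CT (n : ℕ) (hn : 1 ≤ n) : IsW n (fun k => if Even n then 1 else 2 * (k : ℂ) + 1) (CT n) := by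
  unfold CT
  split_ifs with h
  · have := isW_level isW_one n
    rw [zero_add, mul_one] at this
    exact this
  · have h1 := isW_EA 1
    have h2 := isW_X_EA 1 le_rfl
    have h3 := isW_level (isW_add h1 h2) (n - 1)
    rw [show 1 + (n - 1) = n by omega] at h3
    have e : EA 1 = 1 := by
      unfold EA itM itM M1
      simp
    rw [e] at h3
    have e2 : (1 - X) ^ (n - 1) * (1 + X * 1) = (1 + X) * (1 - X : ℂ[X]) ^ (n - 1) := by ring
    rw [e2] at h3
    convert h3 using 2 with k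
    simp only [pow_one]; ring

theorem CT_expand (n : ℕ) (hn : 1 ≤ n) : 2 * Polynomial.expand ℂ 2 (CT n) =
    (1 + X) ^ n * CT n + (1 - X) ^ n * ng (CT n) := by
  unfold CT
  split_ifs with h
  · simp only [map_pow, map_sub, map_one, expand_X, ng_X]
    have e1 : (1 - X ^ 2 : ℂ[X]) = (1 + X) * (1 - X) := by ring
    rw [e1, mul_pow]; ring
  · obtain ⟨m, rfl⟩ : ∃ m, n = m + 1 := ⟨n - 1, by omega⟩
    simp only [map_mul, map_pow, map_sub, map_add, map_one, expand_X, ng_X, Nat.add_sub_cancel]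
    have e1 : (1 - X ^ 2 : ℂ[X]) = (1 + X) * (1 - X) := by ring
    rw [e1, mul_pow]; ring

theorem norm_refl (g : ℂ[X]) (hg : ∀ z : ℂ, 0 < z.re → g.eval z ≠ 0) (x : ℂ) (hx : 0 < x.re) :
    ‖g.eval (-(starRingEnd ℂ) x)‖ ≤ ‖g.eval x‖ := by
  have hsp : g.Splits := IsAlgClosed.splits g
  have hr : ∀ z ∈ g.roots, z.re ≤ 0 := by
    intro z hz
    by_contra hc
    push Not at hc
    exact hg z hc (mem_roots'.1 hz).2
  rw [hsp.eval_eq_prod_roots, hsp.eval_eq_prod_roots, norm_mul, norm_mul]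
  apply mul_le_mul_of_nonneg_left _ (norm_nonneg _)
  generalize g.roots = S at hr
  induction S using Multiset.induction_on with
  | empty => simp
  | cons a s ih =>
    have ih' := ih (fun z hz => hr z (Multiset.mem_cons_of_mem hz))
    have ha := hr a (Multiset.mem_cons_self a s)
    rw [Multiset.map_cons, Multiset.prod_cons, Multiset.map_cons, Multiset.prod_cons, norm_mul,
      norm_mul]
    refine mul_le_mul ?_ ih' (norm_nonneg _) (norm_nonneg _)
    rw [← sq_le_sq₀ (norm_nonneg _) (norm_nonneg _), Complex.sq_norm, Complex.sq_norm,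
      Complex.normSq_apply, Complex.normSq_apply]
    simp only [Complex.sub_re, Complex.sub_im, Complex.neg_re, Complex.neg_im, Complex.conj_re,
      Complex.conj_im, neg_neg]
    nlinarith [mul_nonneg hx.le (neg_nonneg.2 ha)]

/-- evaluation commutes with conjugation -/
def RC (h : ℂ[X]) : Prop := ∀ z : ℂ, h.eval ((starRingEnd ℂ) z) = (starRingEnd ℂ) (h.eval z)

theorem RC.add {f g : ℂ[X]} (hf : RC f) (hg : RC g) : RC (f + g) := by
  intro z; rw [eval_add, eval_add, map_add, hf, hg]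

theorem RC.sub {f g : ℂ[X]} (hf : RC f) (hg : RC g) : RC (f - g) := by
  intro z; rw [eval_sub, eval_sub, map_sub, hf, hg]

theorem RC.mul {f g : ℂ[X]} (hf : RC f) (hg : RC g) : RC (f * g) := by
  intro z; rw [eval_mul, eval_mul, map_mul, hf, hg]

theorem RC.pow {f : ℂ[X]} (hf : RC f) (n : ℕ) : RC (f ^ n) := by
  intro z; rw [eval_pow, eval_pow, map_pow, hf]

theorem RC_X : RC X := by intro z; simp

theorem RC_C (r : ℝ) : RC (C (r : ℂ)) := by intro z; simp

theorem RC_one : RC 1 := by intro z; simp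

theorem RC_EA (n : ℕ) : RC (EA n) := fun z => NN_eval_conj (EA_NN n) z

theorem RC_GG (N : ℕ) : RC (GG N) := by
  rw [← GG_eq]
  have h : (C ((N : ℂ) + 2) : ℂ[X]) = C (((N + 2 : ℝ)) : ℂ) := by push_cast; rfl
  rw [h]
  exact ((RC_one.add RC_X).mul (RC_EA _)).sub (((RC_C _).mul RC_X).mul (RC_EA _))

theorem RC_CT (n : ℕ) : RC (CT n) := by
  unfold CT
  split_ifs
  · exact (RC_one.sub RC_X).pow n
  · exact (RC_one.add RC_X).mul ((RC_one.sub RC_X).pow _)

theorem norm_one_sub_lt {x : ℂ} (hx : 0 < x.re) : ‖1 - x‖ < ‖1 + x‖ := by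
  rw [← sq_lt_sq₀ (norm_nonneg _) (norm_nonneg _), Complex.sq_norm, Complex.sq_norm,
      Complex.normSq_apply, Complex.normSq_apply]
  simp only [Complex.sub_re, Complex.sub_im, Complex.add_re, Complex.add_im, Complex.one_re,
    Complex.one_im]
  nlinarith

theorem CT_bound (N : ℕ) (hN : 2 ≤ N) (x : ℂ) (hx : 0 < x.re) :
    ‖(CT (N + 2)).eval x‖ ≤ ‖1 + x‖ ^ (N - 2) * ‖1 - x‖ ^ 4 := by
  have h1 := (norm_one_sub_lt hx).le
  unfold CT
  split_ifs with h
  · rw [eval_pow, eval_sub, eval_one, eval_X, norm_pow, show N + 2 = (N - 2) + 4 by omega, pow_add]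
    exact mul_le_mul_of_nonneg_right (pow_le_pow_left₀ (norm_nonneg _) h1 _) (by positivity)
  · have hN3 : 3 ≤ N := by
      rcases Nat.lt_or_ge N 3 with h3 | h3
      · exfalso
        have : N = 2 := by omega
        subst this
        exact h (by decide)
      · exact h3
    rw [eval_mul, eval_pow, eval_sub, eval_add, eval_one, eval_X, norm_mul, norm_pow,
      show N + 2 - 1 = (N - 3) + 4 by omega, pow_add, ← mul_assoc]
    apply mul_le_mul_of_nonneg_right _ (by positivity)
    rw [show N - 2 = (N - 3) + 1 by omega, pow_succ, mul_comm]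
    exact mul_le_mul_of_nonneg_right (pow_le_pow_left₀ (norm_nonneg _) h1 _) (norm_nonneg _)

theorem D_real (N : ℕ) (hN : 2 ≤ N) (e : ℝ) (he : |e| ≤ 1) (B : ℂ[X])
    (hB : IsW (N + 2) (fun k => (2 * (k : ℂ) + 1) ^ (N + 2)) B) (t : ℂ)
    (ht : (B - C (((N : ℂ) + 2) * 2 ^ (N + 1)) * (X * EA (N + 1)) + C (e : ℂ) * CT (N + 2)).eval t = 0) :
    t.im = 0 := by
  set Dp := B - C (((N : ℂ) + 2) * 2 ^ (N + 1)) * (X * EA (N + 1)) + C (e : ℂ) * CT (N + 2) with hDp
  set g := GG N + C (e : ℂ) * CT (N + 2) with hg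
  have hid : 2 * Polynomial.expand ℂ 2 Dp = (1 + X) ^ (N + 2) * g + ng ((1 + X) ^ (N + 2) * g) := by
    have h1 := even_part (N + 2) B hB
    have h2 := odd_part (N + 1)
    have h3 := CT_expand (N + 2) (by omega)
    rw [hDp, hg, ← GG_eq]
    simp only [map_add, map_sub, map_mul, map_pow, map_one, expand_X, expand_C, ng_X, ng_C] at *
    simp only [map_ofNat, map_natCast] at *
    linear_combination h1 - ((N : ℂ[X]) + 2) * X * h2 + C (e : ℂ) * h3
  -- choose a square root in the closed right half plane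
  obtain ⟨x, hxt⟩ : ∃ x : ℂ, x ^ 2 = t := IsAlgClosed.exists_pow_nat_eq t (by norm_num)
  have main : ∀ x : ℂ, x ^ 2 = t → 0 < x.re → False := by
    intro x hxt hx
    have h1 := congrArg (fun p => Polynomial.eval x p) hid
    simp only [eval_mul, eval_add] at h1
    rw [expand_eval, hxt, ht, mul_zero, ng_apply, eval_comp] at h1
    have h2 : ((1 + X) ^ (N + 2) * g).eval x = - ((1 + X) ^ (N + 2) * g).eval (-x) := by
      rw [eval_mul]
      have : eval x (-X : ℂ[X]) = -x := by simp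
      rw [this] at h1
      linear_combination -h1
    have hgne : ∀ z : ℂ, 0 < z.re → g.eval z ≠ 0 := by
      intro z hz h0
      have h3 := GG_bound N hN z hz
      have h4 := CT_bound N hN z hz
      rw [hg, eval_add, eval_mul, eval_C] at h0
      have h5 : (GG N).eval z = -((e : ℂ) * (CT (N + 2)).eval z) := by linear_combination h0
      rw [h5, norm_neg, norm_mul, Complex.norm_real, Real.norm_eq_abs] at h3
      have h6 : |e| * ‖(CT (N + 2)).eval z‖ ≤ 1 * ‖(CT (N + 2)).eval z‖ :=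
        mul_le_mul_of_nonneg_right he (norm_nonneg _)
      linarith
    have hrc : RC g := (RC_GG N).add ((RC_C e).mul (RC_CT _))
    have h7 := norm_refl g hgne x hx
    have h8 : ‖g.eval (-x)‖ = ‖g.eval (-(starRingEnd ℂ) x)‖ := by
      have := hrc (-x)
      rw [map_neg] at this
      rw [this, RCLike.norm_conj]
    rw [← h8] at h7
    have h9 := congrArg norm h2
    have e10 : ∀ y : ℂ, ((1 + X) ^ (N + 2) * g).eval y = (1 + y) ^ (N + 2) * g.eval y := by
      intro y
      rw [eval_mul, eval_pow]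
      congr 1
      simp
    rw [norm_neg, e10, e10, norm_mul, norm_mul, norm_pow, norm_pow, ← sub_eq_add_neg] at h9
    have h10 := norm_one_sub_lt hx
    have h11 : ‖1 - x‖ ^ (N + 2) < ‖1 + x‖ ^ (N + 2) :=
      pow_lt_pow_left₀ h10 (norm_nonneg _) (by omega)
    have h12 : 0 < ‖g.eval x‖ := norm_pos_iff.2 (hgne x hx)
    have h13 : ‖1 - x‖ ^ (N + 2) * ‖g.eval (-x)‖ ≤ ‖1 - x‖ ^ (N + 2) * ‖g.eval x‖ :=
      mul_le_mul_of_nonneg_left h7 (by positivity)
    have h14 : ‖1 - x‖ ^ (N + 2) * ‖g.eval x‖ < ‖1 + x‖ ^ (N + 2) * ‖g.eval x‖ :=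
      mul_lt_mul_of_pos_right h11 h12
    linarith
  rcases lt_trichotomy x.re 0 with h | h | h
  · exact (main (-x) (by rw [neg_sq]; exact hxt) (by rw [Complex.neg_re]; linarith)).elim
  · rw [← hxt, pow_two, Complex.mul_im, h]; ring
  · exact (main x hxt h).elim

end Pool.Agent.R578.SE
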