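import Mathlib

/-!
# Signed Eulerian polynomials of types A, B, D: definitions
-/

namespace Pool.Agent.R578.SE

open Polynomial Equiv Finset

/-- number of descents inside a word of integers -/
def des {n : ℕ} (x : Fin n → ℤ) : ℕ :=
  (univ.filter (fun p : Fin n × Fin n => (p.1 : ℕ) + 1 = p.2 ∧ x p.2 < x p.1)).card

/-- Signed permutations in window notation: `w.1` gives the absolute values (minus one) of the
entries, `w.2 v = true` means that the letter with absolute value `v + 1` is negative. -/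
abbrev SP (n : ℕ) : Type := Perm (Fin n) × (Fin n → Bool)

/-- the signed letter of absolute value `v + 1` -/
def val {n : ℕ} (s : Fin n → Bool) (v : Fin n) : ℤ := if s v then -((v : ℤ) + 1) else (v : ℤ) + 1

/-- the window entry `π_{i+1}` -/
def ent {n : ℕ} (w : SP n) (i : Fin n) : ℤ := val w.2 (w.1 i)

/-- number of negative entries -/
def neg {n : ℕ} (w : SP n) : ℕ := (univ.filter (fun i : Fin n => ent w i < 0)).card

/-- number of pairs `i < j` with `π_i > π_j` -/
def invP {n : ℕ} (w : SP n) : ℕ :=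
  (univ.filter (fun p : Fin n × Fin n => p.1 < p.2 ∧ ent w p.2 < ent w p.1)).card

/-- number of pairs `i < j` with `-π_i > π_j` -/
def invM {n : ℕ} (w : SP n) : ℕ :=
  (univ.filter (fun p : Fin n × Fin n => p.1 < p.2 ∧ ent w p.2 < - ent w p.1)).card

/-- type A descents of a permutation -/
def desA {n : ℕ} (σ : Perm (Fin n)) : ℕ := des (fun i => (σ i : ℤ))

/-- type B descents: `π_0 = 0` -/
def desB {n : ℕ} (w : SP n) : ℕ :=
  des (ent w) + (univ.filter (fun i : Fin n => (i : ℕ) = 0 ∧ ent w i < 0)).card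

/-- type D descents: `π_0 = -π_2` -/
def desD {n : ℕ} (w : SP n) : ℕ :=
  des (ent w) +
    (univ.filter (fun p : Fin n × Fin n => (p.1 : ℕ) = 0 ∧ (p.2 : ℕ) = 1 ∧ ent w p.1 < - ent w p.2)).card

/-- descents of `π_2 … π_n` -/
def des' {n : ℕ} (w : SP n) : ℕ :=
  (univ.filter (fun p : Fin n × Fin n => (p.1 : ℕ) + 1 = p.2 ∧ 1 ≤ (p.1 : ℕ) ∧
    ent w p.2 < ent w p.1)).card

/-- type B length -/
def lenB {n : ℕ} (w : SP n) : ℕ := invP w + invM w + neg w

/-- type D length -/
def lenD {n : ℕ} (w : SP n) : ℕ := invP w + invM w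

/-- descent polynomial of the permutations of sign `e` -/
noncomputable def polA (n : ℕ) (e : ℤˣ) : ℤ[X] :=
  ∑ σ ∈ univ.filter (fun σ : Perm (Fin n) => Perm.sign σ = e), X ^ desA σ

/-- type B descent polynomial of the elements of length parity `e` -/
noncomputable def polB (n : ℕ) (e : ℤˣ) : ℤ[X] :=
  ∑ w ∈ univ.filter (fun w : SP n => (-1 : ℤˣ) ^ lenB w = e), X ^ desB w

/-- type D descent polynomial of the elements of length parity `e` -/
noncomputable def polD (n : ℕ) (e : ℤˣ) : ℤ[X] :=
  ∑ w ∈ univ.filter (fun w : SP n => Even (neg w) ∧ (-1 : ℤˣ) ^ lenD w = e), X ^ desD w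

end Pool.Agent.R578.SE
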