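import Pool.Agent.R578.SE.Defs
import Pool.Agent.H750R3.SignCount

/-!
# Type D reductions for signed Eulerian polynomials
-/

set_option autoImplicit false

namespace Pool.Agent.R578.SE

open Polynomial Equiv Finset

/-! ### flipping one sign -/

/-- change the sign of the letter `v` -/
def fl {n : ℕ} (s : Fin n → Bool) (v : Fin n) : Fin n → Bool := Function.update s v (!s v)

lemma fl_self {n : ℕ} (s : Fin n → Bool) (v : Fin n) : fl s v v = !s v := by simp [fl]

lemma fl_ne {n : ℕ} (s : Fin n → Bool) {v u : Fin n} (h : u ≠ v) : fl s v u = s u := by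
  simp [fl, Function.update_of_ne h]

lemma fl_fl {n : ℕ} (s : Fin n → Bool) (v : Fin n) : fl (fl s v) v = s := by
  funext u
  by_cases h : u = v
  · subst h; rw [fl_self, fl_self, Bool.not_not]
  · rw [fl_ne _ h, fl_ne _ h]

lemma val_fl_self {n : ℕ} (s : Fin n → Bool) (v : Fin n) : val (fl s v) v = - val s v := by
  unfold val
  rw [fl_self]
  cases s v <;> simp

lemma val_fl_ne {n : ℕ} (s : Fin n → Bool) {v u : Fin n} (h : u ≠ v) :
    val (fl s v) u = val s u := by
  unfold val
  rw [fl_ne _ h]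

lemma val_cases {n : ℕ} (s : Fin n → Bool) (v : Fin n) :
    (val s v = (v : ℤ) + 1 ∧ s v = false) ∨ (val s v = -((v : ℤ) + 1) ∧ s v = true) := by
  unfold val
  cases s v <;> simp

lemma val_neg_iff {n : ℕ} (s : Fin n → Bool) (v : Fin n) : val s v < 0 ↔ s v = true := by
  rcases val_cases s v with ⟨h, h'⟩ | ⟨h, h'⟩ <;> rw [h, h'] <;> simp <;> omega

lemma val_injF {n : ℕ} (s : Fin n → Bool) : Function.Injective (val s) := by
  intro u v h
  rcases val_cases s u with ⟨h1, -⟩ | ⟨h1, -⟩ <;> rcases val_cases s v with ⟨h2, -⟩ | ⟨h2, -⟩ <;>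
    (rw [h1, h2] at h; ext; omega)

/-- comparisons of different letters do not see the sign of the letter `1` -/
lemma cmp_fl {k : ℕ} (s : Fin (k + 1) → Bool) {u v : Fin (k + 1)} (h : u ≠ v) :
    (val (fl s 0) u < val (fl s 0) v ↔ val s u < val s v) ∧
    (val (fl s 0) u < - val (fl s 0) v ↔ val s u < - val s v) := by
  by_cases hu : u = 0
  · subst hu
    have hv : v ≠ 0 := fun h' => h h'.symm
    have hv' : 1 ≤ (v : ℕ) := Nat.one_le_iff_ne_zero.2 (fun h' => hv (Fin.ext h'))
    rw [val_fl_self, val_fl_ne _ hv]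
    rcases val_cases s 0 with ⟨h1, -⟩ | ⟨h1, -⟩ <;> rcases val_cases s v with ⟨h2, -⟩ | ⟨h2, -⟩ <;>
      (rw [h1, h2]; simp only [Fin.val_zero]; omega)
  · by_cases hv : v = 0
    · subst hv
      have hu' : 1 ≤ (u : ℕ) := Nat.one_le_iff_ne_zero.2 (fun h' => hu (Fin.ext h'))
      rw [val_fl_self, val_fl_ne _ hu]
      rcases val_cases s 0 with ⟨h1, -⟩ | ⟨h1, -⟩ <;>
        rcases val_cases s u with ⟨h2, -⟩ | ⟨h2, -⟩ <;>
        (rw [h1, h2]; simp only [Fin.val_zero]; omega)
    · rw [val_fl_ne _ hu, val_fl_ne _ hv]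
      simp

lemma neg_eq {n : ℕ} (w : SP n) : neg w = (univ.filter (fun v => w.2 v = true)).card := by
  unfold neg
  refine Finset.card_bij (fun i _ => w.1 i) ?_ ?_ ?_
  · intro i hi
    simp only [mem_filter, mem_univ, true_and] at hi ⊢
    exact (val_neg_iff _ _).1 hi
  · intro i _ j _ h
    exact w.1.injective h
  · intro v hv
    simp only [mem_filter, mem_univ, true_and] at hv
    refine ⟨w.1.symm v, ?_, by simp⟩
    simp only [mem_filter, mem_univ, true_and]
    unfold ent
    rw [Equiv.apply_symm_apply]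
    exact (val_neg_iff _ _).2 hv

lemma neg_flip {n : ℕ} (σ : Perm (Fin n)) (s : Fin n → Bool) (v : Fin n) :
    Even (neg (σ, fl s v)) ↔ ¬ Even (neg (σ, s)) := by
  rw [neg_eq, neg_eq]
  simp only
  cases hs : s v
  · have : (univ.filter (fun u => fl s v u = true)) = insert v (univ.filter (fun u => s u = true)) := by
      ext u
      simp only [mem_filter, mem_univ, true_and, mem_insert]
      by_cases h : u = v
      · subst h; rw [fl_self, hs]; simp
      · rw [fl_ne _ h]; simp [h]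
    rw [this, card_insert_of_notMem (by simp [hs]), Nat.even_add_one]
  · have : (univ.filter (fun u => s u = true)) =
        insert v (univ.filter (fun u => fl s v u = true)) := by
      ext u
      simp only [mem_filter, mem_univ, true_and, mem_insert]
      by_cases h : u = v
      · subst h; rw [fl_self, hs]; simp
      · rw [fl_ne _ h]; simp [h]
    rw [this, card_insert_of_notMem (by simp [fl_self, hs]), Nat.even_add_one, not_not]

lemma desD_flip {k : ℕ} (σ : Perm (Fin (k + 1))) (s : Fin (k + 1) → Bool) :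
    desD (σ, fl s 0) = desD (σ, s) := by
  unfold desD des ent
  congr 2
  · refine filter_congr fun p _ => ?_
    simp only
    refine and_congr_right fun hp => ?_
    refine (cmp_fl s ?_).1
    intro h
    have := σ.injective h
    rw [this] at hp
    omega
  · refine filter_congr fun p _ => ?_
    simp only
    refine and_congr_right fun hp => and_congr_right fun hp2 => ?_
    refine (cmp_fl s ?_).2
    intro h
    have := σ.injective h
    rw [this] at hp
    omega

theorem halfD (n : ℕ) (hn : 1 ≤ n) (ε : Perm (Fin n) → ℤ) :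
    ∑ w : SP n, C (ε w.1) * X ^ desD w =
      2 * ∑ w ∈ univ.filter (fun w : SP n => Even (neg w)), C (ε w.1) * (X : ℤ[X]) ^ desD w := by
  obtain ⟨k, rfl⟩ : ∃ k, n = k + 1 := ⟨n - 1, by omega⟩
  have hinv : Function.Involutive (fun w : SP (k + 1) => ((w.1, fl w.2 0) : SP (k + 1))) := by
    intro w
    simp [fl_fl]
  have h1 : ∑ w ∈ univ.filter (fun w : SP (k + 1) => ¬ Even (neg w)),
      C (ε w.1) * (X : ℤ[X]) ^ desD w =
      ∑ w ∈ univ.filter (fun w : SP (k + 1) => Even (neg w)), C (ε w.1) * (X : ℤ[X]) ^ desD w := by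
    refine Finset.sum_equiv hinv.toPerm ?_ ?_
    · intro w
      simp only [mem_filter, mem_univ, true_and, Function.Involutive.coe_toPerm]
      exact (neg_flip w.1 w.2 0).symm
    · intro w _
      simp only [Function.Involutive.coe_toPerm]
      rw [desD_flip]
  rw [← Finset.sum_filter_add_sum_filter_not univ (fun w : SP (k + 1) => Even (neg w)), h1, two_mul]

/-! ### the first entry -/

lemma des_eqF {k : ℕ} (w : SP (k + 2)) :
    des (ent w) = des' w + if ent w 1 < ent w 0 then 1 else 0 := by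
  unfold des des'
  have h1 : (univ.filter (fun p : Fin (k + 2) × Fin (k + 2) =>
      (p.1 : ℕ) + 1 = p.2 ∧ ent w p.2 < ent w p.1)) =
      (univ.filter (fun p : Fin (k + 2) × Fin (k + 2) =>
        (p.1 : ℕ) + 1 = p.2 ∧ 1 ≤ (p.1 : ℕ) ∧ ent w p.2 < ent w p.1)) ∪
      (univ.filter (fun p : Fin (k + 2) × Fin (k + 2) =>
        p = (0, 1) ∧ ent w 1 < ent w 0)) := by
    ext ⟨a, b⟩
    simp only [mem_filter, mem_univ, true_and, mem_union, Prod.mk.injEq]
    constructor
    · rintro ⟨h1, h2⟩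
      by_cases ha : 1 ≤ (a : ℕ)
      · exact Or.inl ⟨h1, ha, h2⟩
      · have ha0 : (a : ℕ) = 0 := by omega
        have hb0 : (b : ℕ) = 1 := by omega
        have ha' : a = 0 := Fin.ext (by rw [ha0]; rfl)
        have hb' : b = 1 := Fin.ext (by rw [hb0]; rfl)
        subst ha' hb'
        exact Or.inr ⟨⟨rfl, rfl⟩, h2⟩
    · rintro (⟨h1, h2, h3⟩ | ⟨⟨rfl, rfl⟩, h2⟩)
      · exact ⟨h1, h3⟩
      · exact ⟨by simp, h2⟩
  rw [h1, card_union_of_disjoint]
  · congr 1
    split_ifs with h
    · have : (univ.filter (fun p : Fin (k + 2) × Fin (k + 2) =>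
        p = (0, 1) ∧ ent w 1 < ent w 0)) = {(0, 1)} := by
        ext p
        simp [h]
      rw [this, card_singleton]
    · rw [card_eq_zero, filter_eq_empty_iff]
      intro p _ hp
      exact h hp.2
  · rw [Finset.disjoint_left]
    rintro ⟨a, b⟩ ha hb
    simp only [mem_filter, mem_univ, true_and, Prod.mk.injEq] at ha hb
    have := ha.2.1
    rw [hb.1.1] at this
    simp at this

lemma desB_eq {k : ℕ} (w : SP (k + 2)) :
    desB w = des' w + (if ent w 1 < ent w 0 then 1 else 0) + if ent w 0 < 0 then 1 else 0 := by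
  unfold desB
  rw [des_eqF]
  congr 1
  split_ifs with h
  · have : (univ.filter (fun i : Fin (k + 2) => (i : ℕ) = 0 ∧ ent w i < 0)) = {0} := by
      ext i
      simp only [mem_filter, mem_univ, true_and, mem_singleton]
      constructor
      · rintro ⟨h1, _⟩
        exact Fin.ext (by simpa using h1)
      · rintro rfl
        exact ⟨by simp, h⟩
    rw [this, card_singleton]
  · rw [card_eq_zero, filter_eq_empty_iff]
    rintro i _ ⟨h1, h2⟩
    have : i = 0 := Fin.ext (by simpa using h1)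
    subst this
    exact h h2

lemma desD_eq {k : ℕ} (w : SP (k + 2)) :
    desD w = des' w + (if ent w 1 < ent w 0 then 1 else 0) +
      if ent w 0 < - ent w 1 then 1 else 0 := by
  unfold desD
  rw [des_eqF]
  congr 1
  split_ifs with h
  · have : (univ.filter (fun p : Fin (k + 2) × Fin (k + 2) =>
        (p.1 : ℕ) = 0 ∧ (p.2 : ℕ) = 1 ∧ ent w p.1 < - ent w p.2)) = {(0, 1)} := by
      ext ⟨a, b⟩
      simp only [mem_filter, mem_univ, true_and, mem_singleton, Prod.mk.injEq]
      constructor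
      · rintro ⟨h1, h2, _⟩
        exact ⟨Fin.ext (by simpa using h1), Fin.ext (by simpa using h2)⟩
      · rintro ⟨rfl, rfl⟩
        exact ⟨by simp, by simp, h⟩
    rw [this, card_singleton]
  · rw [card_eq_zero, filter_eq_empty_iff]
    rintro ⟨a, b⟩ _ ⟨h1, h2, h3⟩
    simp only at h1 h2 h3
    have e1 : a = 0 := Fin.ext (by simpa using h1)
    have e2 : b = 1 := Fin.ext (by simpa using h2)
    subst e1 e2
    exact h h3

/-- flip the sign of the first entry -/
def psi {k : ℕ} (w : SP (k + 2)) : SP (k + 2) := (w.1, fl w.2 (w.1 0))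

lemma psi_inv {k : ℕ} : Function.Involutive (psi (k := k)) := by
  intro w
  simp [psi, fl_fl]

lemma ent_psi_zero {k : ℕ} (w : SP (k + 2)) : ent (psi w) 0 = - ent w 0 := by
  unfold ent psi
  exact val_fl_self _ _

lemma ent_psi_ne {k : ℕ} (w : SP (k + 2)) {i : Fin (k + 2)} (h : i ≠ 0) :
    ent (psi w) i = ent w i := by
  unfold ent psi
  exact val_fl_ne _ (fun h' => h (w.1.injective h'))

lemma des'_psi {k : ℕ} (w : SP (k + 2)) : des' (psi w) = des' w := by
  unfold des'
  congr 1
  refine filter_congr fun p _ => ?_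
  refine and_congr_right fun hp => and_congr_right fun hp2 => ?_
  have h1 : p.1 ≠ 0 := fun h => by rw [h] at hp2; simp at hp2
  have h2 : p.2 ≠ 0 := fun h => by rw [h] at hp; simp at hp
  rw [ent_psi_ne w h1, ent_psi_ne w h2]

lemma ent_ne {k : ℕ} (w : SP (k + 2)) :
    ent w 0 ≠ 0 ∧ ent w 0 ≠ ent w 1 ∧ ent w 0 ≠ - ent w 1 := by
  have h : w.1 0 ≠ w.1 1 := fun h => by
    have := w.1.injective h
    simp at this
  have h' : ((w.1 0 : Fin (k + 2)) : ℕ) ≠ (w.1 1 : Fin (k + 2)) := fun h2 => h (Fin.ext h2)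
  unfold ent
  rcases val_cases w.2 (w.1 0) with ⟨h1, -⟩ | ⟨h1, -⟩ <;>
    rcases val_cases w.2 (w.1 1) with ⟨h2, -⟩ | ⟨h2, -⟩ <;>
    (rw [h1, h2]; omega)

lemma pair_sum {k : ℕ} (w : SP (k + 2)) :
    (2 * (X : ℤ[X]) ^ desB w - X ^ desD w) + (2 * X ^ desB (psi w) - X ^ desD (psi w)) =
      2 * (X * X ^ des' w) := by
  obtain ⟨h0, h1, h2⟩ := ent_ne w
  have e1 : ent (psi w) 1 = ent w 1 := ent_psi_ne w (by simp)
  rw [desB_eq w, desD_eq w, desB_eq (psi w), desD_eq (psi w), des'_psi, ent_psi_zero, e1]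
  set a := ent w 0
  set y := ent w 1
  generalize des' w = d
  by_cases p : y < a <;> by_cases q : a < -y <;> by_cases r : a < 0
  all_goals first
    | (exfalso; omega)
    | skip
  · rw [if_pos p, if_pos q, if_pos r, if_pos (by omega : y < -a), if_neg (by omega : ¬ (-a < 0)),
      if_pos (by omega : -a < -y)]
    ring
  · rw [if_pos p, if_pos q, if_neg r, if_pos (by omega : y < -a), if_pos (by omega : (-a < 0)),
      if_pos (by omega : -a < -y)]
    ring
  · rw [if_pos p, if_neg q, if_neg r, if_neg (by omega : ¬ y < -a), if_pos (by omega : (-a < 0)),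
      if_pos (by omega : -a < -y)]
    ring
  · rw [if_neg p, if_pos q, if_pos r, if_pos (by omega : y < -a), if_neg (by omega : ¬ (-a < 0)),
      if_neg (by omega : ¬ -a < -y)]
    ring
  · rw [if_neg p, if_neg q, if_pos r, if_neg (by omega : ¬ y < -a), if_neg (by omega : ¬ (-a < 0)),
      if_neg (by omega : ¬ -a < -y)]
    ring
  · rw [if_neg p, if_neg q, if_neg r, if_neg (by omega : ¬ y < -a), if_pos (by omega : (-a < 0)),
      if_neg (by omega : ¬ -a < -y)]
    ring

theorem flipD (n : ℕ) (hn : 2 ≤ n) (ε : Perm (Fin n) → ℤ) :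
    ∑ w : SP n, C (ε w.1) * (2 * X ^ desB w - X ^ desD w) =
      X * ∑ w : SP n, C (ε w.1) * (X : ℤ[X]) ^ des' w := by
  obtain ⟨k, rfl⟩ : ∃ k, n = k + 2 := ⟨n - 2, by omega⟩
  have h1 : ∑ w : SP (k + 2), C (ε w.1) * (2 * (X : ℤ[X]) ^ desB w - X ^ desD w) =
      ∑ w : SP (k + 2), C (ε w.1) * (2 * (X : ℤ[X]) ^ desB (psi w) - X ^ desD (psi w)) := by
    rw [← Equiv.sum_comp psi_inv.toPerm]
    rfl
  have h2 : (2 : ℤ[X]) * ∑ w : SP (k + 2), C (ε w.1) * (2 * (X : ℤ[X]) ^ desB w - X ^ desD w) =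
      2 * (X * ∑ w : SP (k + 2), C (ε w.1) * (X : ℤ[X]) ^ des' w) := by
    rw [two_mul]
    nth_rewrite 2 [h1]
    rw [← Finset.sum_add_distrib, Finset.mul_sum, Finset.mul_sum]
    refine Finset.sum_congr rfl fun w _ => ?_
    rw [← mul_add, pair_sum]
    ring
  exact mul_left_cancel₀ (by norm_num : (2 : ℤ[X]) ≠ 0) h2

/-! ### descents of the tail -/

lemma des_comp {n : ℕ} {v : Fin n → ℤ} (hv : StrictMono v) (σ : Perm (Fin n)) :
    des (fun i => v (σ i)) = desA σ := by
  unfold desA des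
  congr 1
  refine filter_congr fun p _ => ?_
  refine and_congr_right fun _ => ?_
  rw [hv.lt_iff_lt]
  simp only [Nat.cast_lt]
  exact Fin.lt_def

lemma sort_strict {n : ℕ} {v : Fin n → ℤ} (hv : Function.Injective v) :
    StrictMono (v ∘ Tuple.sort v) :=
  (Tuple.monotone_sort v).strictMono_of_injective (hv.comp (Tuple.sort v).injective)

lemma sum_inj {n : ℕ} {v : Fin n → ℤ} (hv : Function.Injective v) :
    ∑ e : Perm (Fin n), (X : ℤ[X]) ^ des (fun i => v (e i)) =
      ∑ σ : Perm (Fin n), (X : ℤ[X]) ^ desA σ := by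
  rw [← Equiv.sum_comp (Equiv.mulLeft (Tuple.sort v))]
  refine Finset.sum_congr rfl fun σ _ => ?_
  rw [← des_comp (sort_strict hv) σ]
  rfl

lemma des'_eq {n : ℕ} (w : SP (n + 1)) : des' w = des (fun j : Fin n => ent w j.succ) := by
  unfold des' des
  symm
  refine Finset.card_bij (fun p _ => (p.1.succ, p.2.succ)) ?_ ?_ ?_
  · rintro ⟨a, b⟩ h
    simp only [mem_filter, mem_univ, true_and, Fin.val_succ] at h ⊢
    exact ⟨by omega, by omega, h.2⟩
  · rintro ⟨a, b⟩ _ ⟨c, d⟩ _ h
    simpa using h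
  · rintro ⟨a, b⟩ h
    simp only [mem_filter, mem_univ, true_and] at h
    obtain ⟨h1, h2, h3⟩ := h
    have ha : a ≠ 0 := fun h => by rw [h] at h2; simp at h2
    have hb : b ≠ 0 := fun h => by rw [h] at h1; simp at h1
    obtain ⟨a', rfl⟩ := Fin.exists_succ_eq.2 ha
    obtain ⟨b', rfl⟩ := Fin.exists_succ_eq.2 hb
    refine ⟨(a', b'), ?_, rfl⟩
    simp only [mem_filter, mem_univ, true_and]
    simp only [Fin.val_succ] at h1
    exact ⟨by omega, h3⟩

theorem des'_sum (n : ℕ) : ∑ w : SP (n+1), (X : ℤ[X]) ^ des' w =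
    C ((2 : ℤ)^(n+1) * ((n : ℤ)+1)) * ∑ σ : Perm (Fin n), (X : ℤ[X]) ^ desA σ := by
  rw [Fintype.sum_prod_type_right]
  have h1 : ∀ s : Fin (n + 1) → Bool, ∑ σ : Perm (Fin (n + 1)), (X : ℤ[X]) ^ des' ((σ, s) : SP (n+1)) =
      ((n : ℤ[X]) + 1) * ∑ σ : Perm (Fin n), (X : ℤ[X]) ^ desA σ := by
    intro s
    rw [← Equiv.sum_comp (Equiv.Perm.decomposeFin (n := n)).symm, Fintype.sum_prod_type]
    have h2 : ∀ p : Fin (n + 1), ∑ e : Perm (Fin n),
        (X : ℤ[X]) ^ des' ((Equiv.Perm.decomposeFin.symm (p, e), s) : SP (n+1)) =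
        ∑ σ : Perm (Fin n), (X : ℤ[X]) ^ desA σ := by
      intro p
      have hv : Function.Injective (fun j : Fin n => val s (swap 0 p j.succ)) := by
        intro a b h
        have := (swap 0 p).injective (val_injF s h)
        exact Fin.succ_injective _ this
      rw [← sum_inj hv]
      refine Finset.sum_congr rfl fun e _ => ?_
      rw [des'_eq]
      congr 2
      funext j
      unfold ent
      simp only [Equiv.Perm.decomposeFin_symm_apply_succ]
    rw [Finset.sum_congr rfl fun p _ => h2 p]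
    simp
  rw [Finset.sum_congr rfl fun s _ => h1 s, Finset.sum_const, Finset.card_univ]
  have h3 : (C ((2 : ℤ)^(n+1) * ((n : ℤ)+1)) : ℤ[X]) = 2^(n+1) * ((n : ℤ[X]) + 1) := by
    simp
  rw [h3]
  simp only [Fintype.card_pi, Fintype.card_bool, Finset.prod_const, Finset.card_univ,
    Fintype.card_fin, nsmul_eq_mul]
  push_cast
  ring

/-! ### the signed sum -/

lemma sg_val {n : ℕ} (s : Fin n → Bool) {i j : Fin n} (h : i < j) :
    H750R3.sg (val s i) (val s j) = if s j then -1 else 1 := by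
  unfold H750R3.sg
  have h' : (i : ℕ) < j := h
  rcases val_cases s i with ⟨h1, -⟩ | ⟨h1, -⟩ <;> rcases val_cases s j with ⟨h2, h3⟩ | ⟨h2, h3⟩ <;>
    rw [h1, h2, h3]
  · rw [if_pos (by omega)]; simp
  · rw [if_neg (by omega)]; simp
  · rw [if_pos (by omega)]; simp
  · rw [if_neg (by omega)]; simp

lemma eps_val {n : ℕ} (s : Fin n → Bool) :
    H750R3.eps (val s) = ∏ i : Fin n, ∏ j ∈ Ioi i, (if s j then (-1 : ℤ) else 1) := by
  unfold H750R3.eps
  refine Finset.prod_congr rfl fun i _ => Finset.prod_congr rfl fun j hj => ?_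
  exact sg_val s (Finset.mem_Ioi.1 hj)

lemma eps_flip {k : ℕ} (s : Fin (k + 2) → Bool) :
    H750R3.eps (val (fl s 1)) = - H750R3.eps (val s) := by
  rw [eps_val, eps_val, Fin.prod_univ_succ, Fin.prod_univ_succ (fun i : Fin (k + 2) => _),
    ← neg_mul]
  congr 1
  · have h1 : (1 : Fin (k + 2)) ∈ Ioi (0 : Fin (k + 2)) := by
      rw [Finset.mem_Ioi]; exact Fin.zero_lt_one
    rw [← Finset.mul_prod_erase _ _ h1, ← Finset.mul_prod_erase _ _ h1, ← neg_mul]
    congr 1
    · rw [fl_self]
      cases s 1 <;> simp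
    · refine Finset.prod_congr rfl fun j hj => ?_
      rw [fl_ne _ (Finset.ne_of_mem_erase hj)]
  · refine Finset.prod_congr rfl fun i _ => Finset.prod_congr rfl fun j hj => ?_
    rw [fl_ne]
    rw [Finset.mem_Ioi] at hj
    intro h
    subst h
    have : ((i.succ : Fin (k + 2)) : ℕ) < ((1 : Fin (k + 2)) : ℕ) := hj
    simp at this

theorem des'_sign (n : ℕ) (hn : 2 ≤ n) :
    ∑ w : SP n, C (Perm.sign w.1 : ℤ) * (X : ℤ[X]) ^ des' w = 0 := by
  obtain ⟨k, rfl⟩ : ∃ k, n = k + 2 := ⟨n - 2, by omega⟩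
  rw [Fintype.sum_prod_type_right]
  have h1 : ∀ s : Fin (k + 2) → Bool, ∑ σ : Perm (Fin (k + 2)),
      C (Perm.sign σ : ℤ) * (X : ℤ[X]) ^ des' ((σ, s) : SP (k + 2)) =
      C (H750R3.eps (val s)) * ∑ σ : Perm (Fin (k + 2)),
        C (Perm.sign σ : ℤ) * (X : ℤ[X]) ^ des (fun j : Fin (k + 1) => ((σ j.succ : Fin (k + 2)) : ℤ)) := by
    intro s
    rw [← Equiv.sum_comp (Equiv.mulLeft (Tuple.sort (val s))), Finset.mul_sum]
    refine Finset.sum_congr rfl fun σ _ => ?_
    rw [← H750R3.sign_sort]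
    simp only [Equiv.coe_mulLeft, Units.val_mul, map_mul]
    rw [mul_assoc]
    congr 3
    rw [des'_eq]
    unfold des
    congr 1
    refine filter_congr fun p _ => and_congr_right fun _ => ?_
    unfold ent
    simp only [Perm.coe_mul, Function.comp_apply]
    have h2 := (sort_strict (val_injF s)).lt_iff_lt (a := σ p.2.succ) (b := σ p.1.succ)
    simp only [Function.comp_apply] at h2
    rw [h2]
    simp only [Nat.cast_lt]
    exact Fin.lt_def
  simp only
  rw [Finset.sum_congr rfl fun s _ => h1 s, ← Finset.sum_mul, ← map_sum]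
  have h3 : ∑ s : Fin (k + 2) → Bool, H750R3.eps (val s) = 0 := by
    refine Finset.sum_involution (fun s _ => fl s 1) ?_ ?_ ?_ ?_
    · intro s _
      rw [eps_flip]
      ring
    · intro s _ _ h
      have := congrFun h 1
      rw [fl_self] at this
      cases hs : s 1 <;> rw [hs] at this <;> simp at this
    · intro s _
      exact mem_univ _
    · intro s _
      exact fl_fl s 1
  rw [h3, map_zero, zero_mul]

end Pool.Agent.R578.SE
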