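import Mathlib
import Pool.Agent.R578.SE.DReal
import Pool.Agent.R578.SE.CountB
import Pool.Agent.R578.SE.FlipD
import Pool.Agent.H750R3.RealRoots

/-!
# Signed Eulerian polynomials: assembly
-/

namespace Pool.Agent.R578.SE

open Polynomial Equiv Finset

/-- every complex root is real (this forces the polynomial to be nonzero) -/
def RealRooted (p : ℤ[X]) : Prop := p ≠ 0 ∧ ∀ z : ℂ, aeval z p = 0 → z.im = 0

theorem realRooted_of {p : ℤ[X]} (h : ∀ z : ℂ, aeval z p = 0 → z.im = 0) : RealRooted p := by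
  refine ⟨?_, h⟩
  rintro rfl
  have := h Complex.I (by simp)
  simp at this

/-- the complexification -/
noncomputable def cx : ℤ[X] →+* ℂ[X] := mapRingHom (Int.castRingHom ℂ)

theorem cx_eval (p : ℤ[X]) (z : ℂ) : (cx p).eval z = aeval z p := by
  unfold cx
  rw [coe_mapRingHom, eval_map, aeval_def]
  rfl

theorem cx_X : cx X = X := by simp [cx]

theorem cx_C (a : ℤ) : cx (C a) = C (a : ℂ) := by simp [cx]

theorem aeval_conj (p : ℤ[X]) (z : ℂ) :
    aeval ((starRingEnd ℂ) z) p = (starRingEnd ℂ) (aeval z p) := by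
  rw [aeval_def, aeval_def, eval₂_eq_sum_range, eval₂_eq_sum_range, map_sum]
  refine sum_congr rfl fun j _ => ?_
  rw [map_mul, map_pow]
  simp

theorem des_lt {n : ℕ} (x : Fin (n + 1) → ℤ) :
    des x + (univ.filter (fun i : Fin (n + 1) => (i : ℕ) = 0 ∧ x i < 0)).card ≤ n + 1 := by
  have h1 : des x ≤ (univ.filter (fun i : Fin (n + 1) => ¬ (i : ℕ) = 0)).card := by
    unfold des
    apply card_le_card_of_injOn (fun p => p.2)
    · intro p hp
      simp only [coe_filter, mem_univ, true_and, Set.mem_ofPred_eq] at hp ⊢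
      omega
    · intro p hp q hq h
      simp only [coe_filter, mem_univ, true_and, Set.mem_ofPred_eq] at hp hq
      have h' : p.2 = q.2 := h
      refine Prod.ext (Fin.ext ?_) h'
      have := congrArg Fin.val h'
      omega
  have h2 : (univ.filter (fun i : Fin (n + 1) => (i : ℕ) = 0 ∧ x i < 0)).card ≤
      (univ.filter (fun i : Fin (n + 1) => (i : ℕ) = 0)).card := by
    apply card_le_card
    intro i hi
    simp only [mem_filter, mem_univ, true_and] at hi ⊢
    exact hi.1
  have h3 := card_filter_add_card_filter_not (s := (univ : Finset (Fin (n + 1)))) (fun i => (i : ℕ) = 0)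
  simp only [card_univ, Fintype.card_fin] at h3
  omega

theorem desB_le (n : ℕ) (w : SP n) : desB w ≤ n := by
  cases n with
  | zero => simp [desB, des]
  | succ n => exact des_lt (ent w)

theorem desA_le (n : ℕ) (σ : Perm (Fin n)) : desA σ ≤ n := by
  cases n with
  | zero => simp [desA, des]
  | succ n => exact (Nat.le_add_right _ _).trans (des_lt (fun i => (σ i : ℤ)))

/-- complexified full sums -/
noncomputable def BB (n : ℕ) : ℂ[X] := ∑ w : SP n, X ^ desB w

theorem isW_BB (n : ℕ) : IsW n (fun k => (2 * (k : ℂ) + 1) ^ n) (BB n) := by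
  have h := isW_desc (univ : Finset (SP n)) (fun w => desB w) (fun _ => 1)
    (fun w _ => desB_le n w) (fun k => (2 * (k : ℤ) + 1) ^ n)
    (fun k => by simpa using countB n k)
  unfold BB
  convert h using 2 with k
  · push_cast; rfl
  · simp

theorem isW_BL (n : ℕ) : IsW n (fun _ => 1)
    (∑ w : SP n, C ((((Perm.sign w.1 : ℤˣ) : ℤ) * (-1) ^ (neg w) : ℤ) : ℂ) * X ^ desB w) := by
  have h := isW_desc (univ : Finset (SP n)) (fun w => desB w)
    (fun w => ((Perm.sign w.1 : ℤˣ) : ℤ) * (-1) ^ (neg w))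
    (fun w _ => desB_le n w) (fun _ => 1) (fun k => countB_len n k)
  convert h using 2 with k
  push_cast; rfl

theorem isW_BS (n : ℕ) : IsW n (fun k => if Even n then 1 else 2 * (k : ℂ) + 1)
    (∑ w : SP n, C (((Perm.sign w.1 : ℤˣ) : ℤ) : ℂ) * X ^ desB w) := by
  have h := isW_desc (univ : Finset (SP n)) (fun w => desB w)
    (fun w => ((Perm.sign w.1 : ℤˣ) : ℤ))
    (fun w _ => desB_le n w) (fun k => if Even n then 1 else 2 * (k : ℤ) + 1)
    (fun k => by
      have := countB_sign n k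
      rw [this]
      split_ifs <;> push_cast <;> rfl)
  convert h using 2 with k
  split_ifs <;> push_cast <;> rfl

/-- type B -/
theorem polB_real (n : ℕ) (hn : 1 ≤ n) (e : ℤˣ) : RealRooted (polB n e) := by
  have h2 : 2 * cx (polB n e) = BB n + C ((e : ℤ) : ℂ) *
      (∑ w : SP n, C ((((Perm.sign w.1 : ℤˣ) : ℤ) * (-1) ^ (neg w) : ℤ) : ℂ) * X ^ desB w) := by
    unfold polB BB
    rw [sum_filter, map_sum, mul_sum, mul_sum, ← sum_add_distrib]
    refine sum_congr rfl fun w _ => ?_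
    have hs := sign_lenB w
    have hs2 : (((Perm.sign w.1 : ℤˣ) : ℤ) * (-1) ^ (neg w) : ℤ) = (((-1 : ℤˣ) ^ lenB w : ℤˣ) : ℤ) := by
      rw [hs]; push_cast; rfl
    rw [hs2]
    generalize (-1 : ℤˣ) ^ lenB w = u
    rcases Int.units_eq_one_or u with rfl | rfl <;> rcases Int.units_eq_one_or e with rfl | rfl <;>
      simp [cx_X] <;> ring
  have hW : IsW n (fun k => (2 * (k : ℂ) + 1) ^ n + ((e : ℤ) : ℂ)) (2 * cx (polB n e)) := by
    rw [h2]
    have := isW_add (isW_BB n) (isW_C_mul ((e : ℤ) : ℂ) (isW_BL n))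
    simpa using this
  have hst := isW_two n e _ hW hn
  apply realRooted_of
  intro z hz
  have hz1 : (cx (polB n e)).eval z = 0 := by rw [cx_eval]; exact hz
  have hconj : (cx (polB n e)).eval ((starRingEnd ℂ) z) = 0 := by
    have h3 := aeval_conj (polB n e) z
    rw [hz, map_zero] at h3
    rw [cx_eval]
    exact h3
  rcases lt_trichotomy z.im 0 with h | h | h
  · exfalso
    apply hst ((starRingEnd ℂ) z) (by rw [Complex.conj_im]; linarith)
    rw [eval_mul, hconj, mul_zero]
  · exact h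
  · exfalso
    apply hst z h
    rw [eval_mul, hz1, mul_zero]

theorem desc_eq_desA {m : ℕ} (σ : Perm (Fin (m + 1))) : Pool.Agent.H750R3.desc σ = desA σ := by
  unfold Pool.Agent.H750R3.desc desA des
  refine Finset.card_bij (fun a _ => if h : a.val + 1 < m + 1 then (a, ⟨a.val + 1, h⟩) else (a, a))
    ?_ ?_ ?_
  · intro a ha
    simp only [Finset.mem_filter, Finset.mem_univ, true_and] at ha ⊢
    obtain ⟨l, h1, h2⟩ := ha
    have h3 : a.val + 1 < m + 1 := by rw [← h1]; exact l.isLt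
    rw [dif_pos h3]
    refine ⟨rfl, ?_⟩
    have h4 : (⟨a.val + 1, h3⟩ : Fin (m+1)) = l := Fin.ext h1.symm
    simp only [h4]
    exact_mod_cast h2
  · intro a _ b _ hab
    split_ifs at hab <;> exact (Prod.ext_iff.1 hab).1
  · rintro ⟨a, b⟩ hab
    simp only [Finset.mem_filter, Finset.mem_univ, true_and] at hab ⊢
    obtain ⟨h1, h2⟩ := hab
    have h3 : a.val + 1 < m + 1 := by rw [h1]; exact b.isLt
    refine ⟨a, ⟨b, h1.symm, by exact_mod_cast h2⟩, ?_⟩
    rw [dif_pos h3]
    exact Prod.ext rfl (Fin.ext h1)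

/-- type A sums -/
theorem isW_AA (m : ℕ) : IsW (m + 1) (fun k => ((k : ℂ) + 1) ^ (m + 1))
    (∑ σ : Perm (Fin (m + 1)), X ^ desA σ) := by
  have h := isW_desc (univ : Finset (Perm (Fin (m + 1)))) (fun σ => desA σ) (fun _ => 1)
    (fun σ _ => desA_le _ σ) (fun k => ((k : ℤ) + 1) ^ (m + 1))
    (fun k => by
      have h1 := Pool.Agent.H750R3.worp (m := m) 1 (k + 1)
      have h2 := Pool.Agent.H750R3.worp (m := m) (-1) (k + 1)
      have h3 : ∀ σ : Perm (Fin (m + 1)), (k + 1 + (m - Pool.Agent.H750R3.desc σ)).choose (m + 1) =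
          (k + (m + 1) - desA σ).choose (m + 1) := by
        intro σ
        have h4 := Pool.Agent.H750R3.desc_le' σ
        rw [desc_eq_desA] at h4 ⊢
        congr 1
        omega
      simp only [h3] at h1 h2
      have h5 := sum_filter_add_sum_filter_not (univ : Finset (Perm (Fin (m + 1))))
        (fun σ => Perm.sign σ = 1) (fun σ => (((k + (m + 1) - desA σ).choose (m + 1) : ℕ) : ℤ))
      have h6 : (univ.filter (fun σ : Perm (Fin (m + 1)) => ¬ Perm.sign σ = 1)) =
          univ.filter (fun σ : Perm (Fin (m + 1)) => Perm.sign σ = -1) := by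
        ext σ
        simp only [mem_filter, mem_univ, true_and]
        rcases Int.units_eq_one_or (Perm.sign σ) with h | h <;> rw [h] <;> decide
      rw [h6] at h5
      simp only [one_mul]
      rw [← h5]
      push_cast at h1 h2
      linarith)
  convert h using 2 with k
  · push_cast; rfl
  · simp

theorem AA_eq (m : ℕ) : (∑ σ : Perm (Fin (m + 1)), (X : ℂ[X]) ^ desA σ) = EA (m + 1) :=
  isW_unique (isW_AA m) (isW_EA (m + 1))

/-- type A -/
theorem polA_real (n : ℕ) (hn : 2 ≤ n) (e : ℤˣ) : RealRooted (polA n e) := by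
  obtain ⟨k, rfl⟩ : ∃ k, n = k + 1 := ⟨n - 1, by omega⟩
  apply realRooted_of
  intro z hz
  apply Pool.Agent.H750R3.P_real k (by omega) e z
  rw [← hz]
  unfold Pool.Agent.H750R3.P polA
  rw [map_sum, map_sum]
  refine sum_congr rfl fun σ _ => ?_
  rw [map_pow, map_pow, aeval_X, aeval_X, desc_eq_desA]

/-- type D, `n ≥ 4` -/
theorem polD_real (N : ℕ) (hN : 2 ≤ N) (e : ℤˣ) : RealRooted (polD (N + 2) e) := by
  have h1 := halfD (N + 2) (by omega) (fun _ => 1)
  have h2 := halfD (N + 2) (by omega) (fun σ => (Perm.sign σ : ℤ))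
  have h3 := flipD (N + 2) (by omega) (fun _ => 1)
  have h4 := flipD (N + 2) (by omega) (fun σ => (Perm.sign σ : ℤ))
  have h5 := des'_sum (N + 1)
  have h6 := des'_sign (N + 2) (by omega)
  rw [h6, mul_zero] at h4
  simp only [map_one, one_mul] at h1 h3
  rw [h5] at h3
  have h7 : 2 * polD (N + 2) e = ∑ w ∈ univ.filter (fun w : SP (N + 2) => Even (neg w)), (X : ℤ[X]) ^ desD w
      + C (e : ℤ) * ∑ w ∈ univ.filter (fun w : SP (N + 2) => Even (neg w)), C (Perm.sign w.1 : ℤ) * (X : ℤ[X]) ^ desD w := by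
    unfold polD
    rw [← filter_filter, sum_filter (p := fun w : SP (N+2) => (-1 : ℤˣ) ^ lenD w = e), mul_sum, mul_sum,
      ← sum_add_distrib]
    refine sum_congr rfl fun w _ => ?_
    rw [sign_lenD w]
    generalize Perm.sign w.1 = u
    rcases Int.units_eq_one_or u with rfl | rfl <;> rcases Int.units_eq_one_or e with rfl | rfl <;>
      simp <;> ring
  have h8 : 4 * polD (N + 2) e = 2 * (∑ w : SP (N + 2), (X : ℤ[X]) ^ desB w) -
      X * (C ((2 : ℤ)^(N+1+1) * (((N + 1 : ℕ) : ℤ)+1)) * ∑ σ : Perm (Fin (N + 1)), (X : ℤ[X]) ^ desA σ) +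
      C (e : ℤ) * (2 * ∑ w : SP (N + 2), C (Perm.sign w.1 : ℤ) * (X : ℤ[X]) ^ desB w) := by
    have e1 : ∑ w : SP (N + 2), (2 * (X : ℤ[X]) ^ desB w - X ^ desD w) =
        2 * (∑ w : SP (N + 2), (X : ℤ[X]) ^ desB w) - ∑ w : SP (N + 2), (X : ℤ[X]) ^ desD w := by
      rw [sum_sub_distrib, mul_sum]
    have e2 : ∑ w : SP (N + 2), C (Perm.sign w.1 : ℤ) * (2 * (X : ℤ[X]) ^ desB w - X ^ desD w) =
        2 * (∑ w : SP (N + 2), C (Perm.sign w.1 : ℤ) * (X : ℤ[X]) ^ desB w) -
          ∑ w : SP (N + 2), C (Perm.sign w.1 : ℤ) * (X : ℤ[X]) ^ desD w := by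
      rw [mul_sum, ← sum_sub_distrib]
      refine sum_congr rfl fun w _ => ?_
      ring
    rw [e1] at h3
    rw [e2] at h4
    linear_combination 2 * h7 - h1 - C (e : ℤ) * h2 - h3 - C (e : ℤ) * h4
  have hCT : (∑ w : SP (N + 2), C (((Perm.sign w.1 : ℤˣ) : ℤ) : ℂ) * (X : ℂ[X]) ^ desB w) = CT (N + 2) :=
    isW_unique (isW_BS (N + 2)) (isW_CT (N + 2) (by omega))
  have h9 : 2 * cx (polD (N + 2) e) = BB (N + 2) - C (((N : ℂ) + 2) * 2 ^ (N + 1)) * (X * EA (N + 1)) +
      C (((e : ℤ) : ℝ) : ℂ) * CT (N + 2) := by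
    have h10 := congrArg cx h8
    simp only [map_mul, map_add, map_sub, map_sum, map_pow, cx_X, cx_C, map_ofNat] at h10
    have hb : (∑ w : SP (N + 2), (X : ℂ[X]) ^ desB w) = BB (N + 2) := rfl
    rw [hb, AA_eq N, hCT] at h10
    have h11 : (2 : ℂ[X]) * (2 * cx (polD (N + 2) e)) = 2 * (BB (N + 2) - C (((N : ℂ) + 2) * 2 ^ (N + 1)) * (X * EA (N + 1)) +
      C (((e : ℤ) : ℝ) : ℂ) * CT (N + 2)) := by
      push_cast at h10 ⊢
      simp only [map_mul, map_add, map_pow, map_ofNat, map_one, map_natCast] at h10 ⊢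
      linear_combination h10
    exact mul_left_cancel₀ two_ne_zero h11
  apply realRooted_of
  intro z hz
  have hz1 : (cx (polD (N + 2) e)).eval z = 0 := by rw [cx_eval]; exact hz
  apply D_real N hN ((e : ℤ) : ℝ) ?_ (BB (N + 2)) (isW_BB (N + 2)) z
  · rw [← h9, eval_mul, hz1, mul_zero]
  · rcases Int.units_eq_one_or e with rfl | rfl <;> simp

end Pool.Agent.R578.SE
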