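import Mathlib
import Pool.Agent.R578.SE.Fin

/-!
# Type D, rank three
-/

namespace Pool.Agent.R578.SE

open Polynomial Equiv Finset

theorem polD_coeff (n : ℕ) (e : ℤˣ) (K : ℕ) (hK : ∀ w : SP n, desD w < K) :
    polD n e = ∑ d ∈ range K,
      C (((univ.filter (fun w : SP n => (Even (neg w) ∧ (-1 : ℤˣ) ^ lenD w = e) ∧ desD w = d)).card : ℕ) : ℤ) * X ^ d := by
  unfold polD
  rw [← sum_fiberwise_of_maps_to (s := univ.filter (fun w : SP n => Even (neg w) ∧ (-1 : ℤˣ) ^ lenD w = e))
    (t := range K) (g := fun w => desD w) (fun w _ => mem_range.2 (hK w))]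
  refine sum_congr rfl fun d _ => ?_
  rw [sum_congr rfl (g := fun _ => (X : ℤ[X]) ^ d) (fun w hw => by rw [(mem_filter.1 hw).2]),
    sum_const, filter_filter]
  simp

theorem desD_lt3 : ∀ w : SP 3, desD w < 4 := by decide +kernel

theorem c10 : (univ.filter (fun w : SP 3 => (Even (neg w) ∧ (-1 : ℤˣ) ^ lenD w = 1) ∧ desD w = 0)).card = 1 := by decide +kernel
theorem c11 : (univ.filter (fun w : SP 3 => (Even (neg w) ∧ (-1 : ℤˣ) ^ lenD w = 1) ∧ desD w = 1)).card = 5 := by decide +kernel
theorem c12 : (univ.filter (fun w : SP 3 => (Even (neg w) ∧ (-1 : ℤˣ) ^ lenD w = 1) ∧ desD w = 2)).card = 5 := by decide +kernel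
theorem c13 : (univ.filter (fun w : SP 3 => (Even (neg w) ∧ (-1 : ℤˣ) ^ lenD w = 1) ∧ desD w = 3)).card = 1 := by decide +kernel
theorem c20 : (univ.filter (fun w : SP 3 => (Even (neg w) ∧ (-1 : ℤˣ) ^ lenD w = -1) ∧ desD w = 0)).card = 0 := by decide +kernel
theorem c21 : (univ.filter (fun w : SP 3 => (Even (neg w) ∧ (-1 : ℤˣ) ^ lenD w = -1) ∧ desD w = 1)).card = 6 := by decide +kernel
theorem c22 : (univ.filter (fun w : SP 3 => (Even (neg w) ∧ (-1 : ℤˣ) ^ lenD w = -1) ∧ desD w = 2)).card = 6 := by decide +kernel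
theorem c23 : (univ.filter (fun w : SP 3 => (Even (neg w) ∧ (-1 : ℤˣ) ^ lenD w = -1) ∧ desD w = 3)).card = 0 := by decide +kernel

theorem polD_three (e : ℤˣ) : RealRooted (polD 3 e) := by
  apply realRooted_of
  intro z hz
  rw [polD_coeff 3 e 4 desD_lt3] at hz
  rcases Int.units_eq_one_or e with rfl | rfl
  · simp only [sum_range_succ, range_zero, sum_empty, c10, c11, c12, c13] at hz
    simp [map_ofNat] at hz
    have h : (z + 1) * ((z + 2) ^ 2 - 3) = 0 := by linear_combination hz
    rcases mul_eq_zero.1 h with h | h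
    · have := congrArg Complex.im h
      simpa using this
    · have h1 := congrArg Complex.im h
      have h2 := congrArg Complex.re h
      simp [pow_two] at h1 h2
      by_contra h3
      have h4 : z.re + 2 = 0 := by
        have : (z.re + 2) * z.im = 0 := by linarith
        exact (mul_eq_zero.1 this).resolve_right h3
      rw [h4] at h2
      nlinarith [mul_self_nonneg z.im]
  · simp only [sum_range_succ, range_zero, sum_empty, c20, c21, c22, c23] at hz
    simp [map_ofNat] at hz
    have h : z * (z + 1) = 0 := by linear_combination (1/6) * hz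
    rcases mul_eq_zero.1 h with h | h
    · rw [h]; simp
    · have := congrArg Complex.im h
      simpa using this

theorem polD_all (n : ℕ) (hn : 3 ≤ n) (e : ℤˣ) : RealRooted (polD n e) := by
  rcases Nat.lt_or_ge n 4 with h | h
  · have : n = 3 := by omega
    subst this
    exact polD_three e
  · obtain ⟨N, rfl⟩ : ∃ N, n = N + 2 := ⟨n - 2, by omega⟩
    exact polD_real N (by omega) e

end Pool.Agent.R578.SE
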